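import Mathlib

/-!
Simultaneous large prime factors of `m ^ 2 + 1` and `m ^ 2 + 3` (MP_2dba45_nt): statements.
-/

set_option autoImplicit false

namespace Pool.Agent.D0H41.LP

open Finset Filter

/-- primes up to `z` -/
def P (z : ℕ) : Finset ℕ := (Icc 1 z).filter Nat.Prime

/-- `F m = (m ^ 2 + 1) (m ^ 2 + 3)` -/
def F (m : ℕ) : ℕ := (m ^ 2 + 1) * (m ^ 2 + 3)

/-- number of roots of `m ^ 2 + a` modulo `q` -/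
def rt (a q : ℕ) : ℕ := ((range q).filter fun r => q ∣ r ^ 2 + a).card

/-- number of roots of `F` modulo `q` -/
def rF (q : ℕ) : ℕ := ((range q).filter fun r => q ∣ F r).card

/-- density of the integers `m` such that `F m` has no prime factor up to `z` -/
noncomputable def VF (z : ℕ) : ℝ := ∏ q ∈ P z, (1 - (rF q : ℝ) / q)

/-- the same for `m ^ 2 + a` -/
noncomputable def Va (a z : ℕ) : ℝ := ∏ q ∈ P z, (1 - (rt a q : ℝ) / q)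

/-- `F m` has no prime factor up to `z` -/
def Sft (z m : ℕ) : Prop := ∀ q ∈ P z, ¬ q ∣ F m

instance (z m : ℕ) : Decidable (Sft z m) := by unfold Sft; infer_instance

/-- the pairs `(y, s)`, `1 ≤ y ≤ M`, `|s| ≤ V`, with `y s = 1` modulo `M` -/
noncomputable def Om (M V : ℕ) : Finset (ℤ × ℤ) :=
  (Icc (1 : ℤ) M ×ˢ Icc (-(V : ℤ)) V).filter fun t => t.1 * t.2 ≡ 1 [ZMOD M]

/-- **KLO** (points on modular hyperbolas in residue classes): from `Pool.Agent.H442R2.KF.incomplete`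
(Weil's bound for incomplete Kloosterman sums with squarefree modulus, in progressions). -/
def S_KLO : Prop := ∃ C : ℝ, 0 < C ∧ ∀ M1 M2 d V : ℕ, Squarefree M1 → 0 < M2 → 0 < d →
  Nat.Coprime M1 M2 → Nat.Coprime (M1 * M2) d → ∀ y0 s0 : ℤ,
  |((((Om (M1 * M2) V).filter fun t => t.1 ≡ y0 [ZMOD d] ∧ t.2 ≡ s0 [ZMOD d]).card : ℕ) : ℝ) -
      (2 * V + 1) * (Nat.totient (M1 * M2) : ℝ) / ((M1 * M2 : ℕ) * (d : ℝ) ^ 2)| ≤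
    C * M2 * (M1.divisors.card : ℝ) ^ 3 * Real.sqrt M1 *
      (Real.log ((M1 * M2 * d : ℕ) : ℝ) + 2) ^ 2 +
    (2 * V + 1) * ((M1 * M2).divisors.card : ℝ) / ((M1 * M2 : ℕ) * (d : ℝ))

/-- the norm `p`: `y ^ 2 + a M ^ 2` (`j = true`) or `M ^ 2 + a y ^ 2` (`j = false`) -/
def Qf (j : Bool) (a y M : ℤ) : ℤ := if j then y ^ 2 + a * M ^ 2 else M ^ 2 + a * y ^ 2

/-- `± M m` -/
def Lf (j : Bool) (a y s M : ℤ) : ℤ := if j then y - Qf j a y M * s else Qf j a y M * s - a * y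

/-- the sieve condition at the prime `q`: `q ∣ p`, or `q ≤ z` and `q ∣ F m` -/
def hit (j : Bool) (a M z : ℕ) (q : ℕ) (t : ℤ × ℤ) : Prop :=
  (q : ℤ) ∣ Qf j a t.1 M ∨ (q ≤ z ∧ (q : ℤ) ∣ ((Lf j a t.1 t.2 M) ^ 2 + (M : ℤ) ^ 2) *
    ((Lf j a t.1 t.2 M) ^ 2 + 3 * (M : ℤ) ^ 2))

open Classical in
/-- **ONE** (the sieve for one modulus `M`): from KLO and the fundamental lemma
`Pool.Agent.H20R2.fLem : Pool.Agent.H410R2.EN.FLem` with `κ = 6`.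
To prove: `t_ONE : S_KLO → S_ONE`. -/
def S_ONE : Prop := ∃ (C : ℝ) (z0 K : ℕ), 0 < C ∧ 3 ≤ z0 ∧
  ∀ (a : ℕ) (j : Bool), (a = 1 ∨ a = 3) → ∀ M1 M2 V : ℕ, Squarefree M1 → 0 < M2 →
  Nat.Coprime M1 M2 → ∀ z z' : ℕ, z0 ≤ z → z ≤ z' →
    ((((Om (M1 * M2) V).filter fun t => ∀ q ∈ P z', z0 < q → ¬ q ∣ M1 * M2 →
        ¬ hit j a (M1 * M2) z q t).card : ℕ) : ℝ) ≤
      C * (2 * V + 1) * (VF z * Va a z') *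
          ∏ q ∈ (M1 * M2).primeFactors.filter (fun q => z0 < q), (1 - 6 / (q : ℝ))⁻¹ +
        C * (z' : ℝ) ^ K * (M2 * (M1.divisors.card : ℝ) ^ 3 * Real.sqrt M1 *
            (Real.log ((M1 * M2 : ℕ) : ℝ) + 2) ^ 2 +
          (2 * V + 1) * ((M1 * M2).divisors.card : ℝ) / ((M1 * M2 : ℕ) : ℝ))

/-- **REP**: the parametrisation. -/
def S_REP : Prop := ∀ a m p : ℕ, (a = 1 ∨ a = 3) → p.Prime → 3 < p → 1 ≤ m → p ∣ m ^ 2 + a →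
  ∃ (j : Bool) (M y : ℕ) (s : ℤ), 1 ≤ y ∧ y ≤ M ∧ (y : ℤ) * s ≡ 1 [ZMOD M] ∧
    Qf j a y M = p ∧ |s| * p ≤ (m + a) * M ∧ (M : ℤ) * m = |Lf j a y s M|

/-- **MERL**: Mertens for the primes weighted by the number of roots, with logarithms. -/
def S_MERL : Prop := ∃ C : ℝ, 0 < C ∧ ∀ a : ℕ, (a = 1 ∨ a = 3) → ∀ y : ℕ, 2 ≤ y →
  |∑ p ∈ P y, (rt a p : ℝ) * Real.log p / p - Real.log y| ≤ C

/-- **MERP**: products. -/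
def S_MERP : Prop := ∃ C : ℝ, 1 ≤ C ∧ (∀ a : ℕ, (a = 1 ∨ a = 3) → ∀ u v : ℕ, 2 ≤ u → u ≤ v →
    ∏ p ∈ (P v).filter (fun p => u < p), (1 - (rt a p : ℝ) / p) ≤
      C * (Real.log u / Real.log v)) ∧
  ∀ z : ℕ, 2 ≤ z → 1 / (C * Real.log z ^ 2) ≤ VF z

open Classical in
/-- **BETA**: few `m` have a prime factor near `x`.
To prove: `t_BETA : S_REP → S_ONE → S_MERP → S_BETA`. -/
def S_BETA : Prop := ∃ (C ε₀ : ℝ) (z₀ : ℕ), 0 < C ∧ 0 < ε₀ ∧ ∃ x₀ : ℕ, ∀ x : ℕ, x₀ ≤ x →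
  ∀ a : ℕ, (a = 1 ∨ a = 3) → ∀ z : ℕ, z₀ ≤ z → (z : ℝ) ≤ (x : ℝ) ^ ε₀ → ∀ N : ℕ,
  (x : ℝ) ^ (1 - ε₀) ≤ N → (N : ℝ) ≤ (x : ℝ) ^ (1 + ε₀) →
    ((((Icc 1 x ×ˢ Ioc N (2 * N)).filter fun t => Sft z t.1 ∧ t.2.Prime ∧
      t.2 ∣ t.1 ^ 2 + a).card : ℕ) : ℝ) ≤ C * x * VF z / Real.log x

open Classical in
/-- **SIV**: the sifted set in the residue class of a prime (fundamental lemma,
`Pool.Agent.H373R2.T7.sys_fund`). -/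
def S_SIV : Prop := ∀ ε : ℝ, 0 < ε → ∃ (K z₀ : ℕ), ∀ z : ℕ, z₀ ≤ z → ∀ x : ℕ,
  (z ^ K ≤ x → |((((Icc 1 x).filter fun m => Sft z m).card : ℕ) : ℝ) - x * VF z| ≤
    ε * (x * VF z)) ∧
  ∀ a p : ℕ, (a = 1 ∨ a = 3) → p.Prime → z < p → z ^ K * p ≤ x →
    ((((Icc 1 x).filter fun m => Sft z m ∧ p ∣ m ^ 2 + a).card : ℕ) : ℝ) ≤
      (1 + ε) * ((rt a p : ℝ) / p * (x * VF z))

open Classical in
/-- **TOP**: few `m` have a prime factor near `x ^ 2`. To prove: `t_TOP : S_MERP → S_TOP`. -/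
def S_TOP : Prop := ∃ (C : ℝ), 0 < C ∧ ∀ δ : ℝ, 0 < δ → δ ≤ 1 → ∃ (η : ℝ), 0 < η ∧
  ∃ x₀ z₀ : ℕ, ∀ x : ℕ, x₀ ≤ x → ∀ z : ℕ, z₀ ≤ z → (z : ℝ) ≤ (x : ℝ) ^ η → ∀ a : ℕ,
  (a = 1 ∨ a = 3) →
    ((((Icc 1 x).filter fun m => Sft z m ∧ ∃ p : ℕ, p.Prime ∧ (x : ℝ) ^ (2 - δ) < p ∧
      p ∣ m ^ 2 + a).card : ℕ) : ℝ) ≤ C * δ * (x * VF z)

open Classical in
/-- **SQU**: squares. -/
def S_SQU : Prop := ∃ C : ℝ, 0 < C ∧ ∀ x z : ℕ, 2 ≤ z → z ≤ x → ∀ a : ℕ, (a = 1 ∨ a = 3) →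
  ((((Icc 1 x).filter fun m => ∃ p : ℕ, p.Prime ∧ z < p ∧ p ^ 2 ∣ m ^ 2 + a).card : ℕ) : ℝ) ≤
    C * (x / z + (x : ℝ) ^ (2 / 3 : ℝ) * (Real.log x + 1))

open Classical in
/-- **FIN**. To prove: `t_FIN : S_BETA → S_SIV → S_MERL → S_MERP → S_TOP → S_SQU → S_FIN`. -/
def S_FIN : Prop := ∃ (δ κ : ℝ) (r : ℕ), 0 < δ ∧ 0 < κ ∧ ∀ᶠ x : ℕ in atTop,
  κ * x / Real.log x ^ 2 ≤ ((((Icc 1 x).filter fun m => Squarefree (m ^ 2 + 1) ∧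
    Squarefree (m ^ 2 + 3) ∧ (m ^ 2 + 1).primeFactors.card ≤ r ∧
    (m ^ 2 + 3).primeFactors.card ≤ r ∧
    (∀ q : ℕ, q.Prime → q ∣ (m ^ 2 + 1) * (m ^ 2 + 3) → (x : ℝ) ^ δ < q) ∧
    (∃ p : ℕ, p.Prime ∧ p ∣ m ^ 2 + 1 ∧ (x : ℝ) ^ (1 + δ) < p) ∧
    (∃ p : ℕ, p.Prime ∧ p ∣ m ^ 2 + 3 ∧ (x : ℝ) ^ (1 + δ) < p)).card : ℕ) : ℝ)

end Pool.Agent.D0H41.LP
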