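import Mathlib
import Pool.Agent.D0H41.LP.Stm

set_option autoImplicit false

namespace Pool.Agent.D0H41.LP

open Finset Filter

/-- the logarithm of a squarefree number -/
lemma log_sqf (n : ℕ) (h : Squarefree n) : Real.log n = ∑ p ∈ n.primeFactors, Real.log p := by
  conv_lhs => rw [← Nat.prod_primeFactors_of_squarefree h]
  rw [Nat.cast_prod, Real.log_prod]
  intro p hp
  have := (Nat.prime_of_mem_primeFactors hp).pos
  positivity

/-- exchange of summation -/
lemma swap (A I : Finset ℕ) (a : ℕ) (ha : 0 < a) (f : ℕ → ℝ) :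
    ∑ m ∈ A, ∑ p ∈ (m ^ 2 + a).primeFactors.filter (fun p : ℕ => p ∈ I), f p =
      ∑ p ∈ I.filter Nat.Prime, f p * ((A.filter fun m => p ∣ m ^ 2 + a).card : ℝ) := by
  have h1 : ∀ m ∈ A, ∑ p ∈ (m ^ 2 + a).primeFactors.filter (fun p : ℕ => p ∈ I), f p =
      ∑ p ∈ I.filter Nat.Prime, if p ∣ m ^ 2 + a then f p else 0 := by
    intro m _
    rw [← sum_filter]
    apply sum_congr _ fun _ _ => rfl
    ext p
    simp only [mem_filter, Nat.mem_primeFactors]
    constructor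
    · rintro ⟨⟨h1, h2, _⟩, h3⟩
      exact ⟨⟨h3, h1⟩, h2⟩
    · rintro ⟨⟨h3, h1⟩, h2⟩
      exact ⟨⟨h1, h2, by positivity⟩, h3⟩
  rw [sum_congr rfl h1, sum_comm]
  apply sum_congr rfl
  intro p _
  rw [← sum_filter, sum_const, nsmul_eq_mul, mul_comm]

/-- dyadic decomposition -/
lemma dyad (f : ℕ → ℝ) (hf : ∀ n, 0 ≤ f n) (y1 y2 I : ℕ) (h : y2 ≤ 2 ^ I * y1) :
    ∑ p ∈ Ioc y1 y2, f p ≤ ∑ i ∈ range I, ∑ p ∈ Ioc (2 ^ i * y1) (2 * (2 ^ i * y1)), f p := by
  have key : ∀ I : ℕ, ∑ p ∈ Ioc y1 (2 ^ I * y1), f p ≤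
      ∑ i ∈ range I, ∑ p ∈ Ioc (2 ^ i * y1) (2 * (2 ^ i * y1)), f p := by
    intro I
    induction I with
    | zero => simp
    | succ I ih =>
      rw [sum_range_succ]
      have e : Ioc y1 (2 ^ (I + 1) * y1) ⊆ Ioc y1 (2 ^ I * y1) ∪ Ioc (2 ^ I * y1) (2 * (2 ^ I * y1)) := by
        intro p hp
        rw [mem_Ioc] at hp
        rw [mem_union, mem_Ioc, mem_Ioc]
        have : 2 ^ (I + 1) * y1 = 2 * (2 ^ I * y1) := by rw [pow_succ]; ring
        rw [this] at hp
        omega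
      refine (sum_le_sum_of_subset_of_nonneg e fun _ _ _ => hf _).trans ?_
      have := sum_union_inter (s₁ := Ioc y1 (2 ^ I * y1)) (s₂ := Ioc (2 ^ I * y1) (2 * (2 ^ I * y1))) (f := f)
      have h0 : 0 ≤ ∑ p ∈ Ioc y1 (2 ^ I * y1) ∩ Ioc (2 ^ I * y1) (2 * (2 ^ I * y1)), f p :=
        sum_nonneg fun _ _ => hf _
      linarith
  refine (sum_le_sum_of_subset_of_nonneg ?_ fun _ _ _ => hf _).trans (key I)
  exact Ioc_subset_Ioc_right h

open Classical in
/-- the deterministic core: a lower bound for the number of `m` with a large prime factor -/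
lemma core (a z y1 y2 : ℕ) (ha : 0 < a) (A As B2 : Finset ℕ) (X L ε ε1 δ2 CM T2 CT : ℝ)
    (hX : 0 ≤ X) (hL : 0 ≤ L) (hε : 0 ≤ ε) (hδ2 : δ2 ≤ 2)
    (hA : ∀ m ∈ A, ∀ p : ℕ, p.Prime → p ≤ z → ¬ p ∣ m ^ 2 + a)
    (hAs : As ⊆ A) (hsq : ∀ m ∈ As, Squarefree (m ^ 2 + a))
    (hlog : ∀ m ∈ As, 2 * (1 - ε) * L ≤ Real.log ((m ^ 2 + a : ℕ) : ℝ))
    (hcard : (1 - 2 * ε) * X ≤ As.card) (hε1 : ε ≤ 1)
    (h1 : ∀ p : ℕ, p.Prime → z < p → p ≤ y1 →
      ((A.filter fun m => p ∣ m ^ 2 + a).card : ℝ) ≤ (1 + ε) * ((rt a p : ℝ) / p * X))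
    (h2 : ∑ p ∈ (Ioc y1 y2).filter Nat.Prime,
      Real.log p * ((A.filter fun m => p ∣ m ^ 2 + a).card : ℝ) ≤ T2)
    (h3 : ∑ p ∈ P y1, (rt a p : ℝ) * Real.log p / p ≤ (1 - ε1) * L + CM)
    (h4 : ∀ m ∈ A, ∀ p q : ℕ, p.Prime → q.Prime → y2 < p → y2 < q → p ∣ m ^ 2 + a →
      q ∣ m ^ 2 + a → p = q)
    (h5 : ∀ m ∈ A, ∀ p : ℕ, p.Prime → p ∣ m ^ 2 + a → Real.log p ≤ (2 + ε) * L ∧
      (m ∉ B2 → Real.log p ≤ (2 - δ2) * L))
    (h6 : (B2.card : ℝ) ≤ CT * δ2 * X) (h7 : 0 ≤ δ2) :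
    2 * (1 - ε) * L * ((1 - 2 * ε) * X) ≤ (1 + ε) * X * ((1 - ε1) * L + CM) + T2 +
      (2 - δ2) * L * ((As.filter fun m => ∃ p : ℕ, p.Prime ∧ y2 < p ∧ p ∣ m ^ 2 + a).card : ℝ) +
      (δ2 + ε) * L * (CT * δ2 * X) := by
  set B := As.filter fun m => ∃ p : ℕ, p.Prime ∧ y2 < p ∧ p ∣ m ^ 2 + a with hB
  have e0 : 2 * (1 - ε) * L * ((1 - 2 * ε) * X) ≤ ∑ m ∈ As, Real.log ((m ^ 2 + a : ℕ) : ℝ) := by
    calc 2 * (1 - ε) * L * ((1 - 2 * ε) * X) ≤ 2 * (1 - ε) * L * As.card :=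
          mul_le_mul_of_nonneg_left hcard (by
            apply mul_nonneg _ hL
            linarith)
      _ = ∑ m ∈ As, 2 * (1 - ε) * L := by rw [sum_const, nsmul_eq_mul, mul_comm]
      _ ≤ _ := sum_le_sum hlog
  have e1 : ∀ m ∈ As, Real.log ((m ^ 2 + a : ℕ) : ℝ) ≤
      ∑ p ∈ (m ^ 2 + a).primeFactors.filter (fun p : ℕ => p ∈ Icc 1 y1), Real.log p +
      ∑ p ∈ (m ^ 2 + a).primeFactors.filter (fun p : ℕ => p ∈ Ioc y1 y2), Real.log p +
      ∑ p ∈ (m ^ 2 + a).primeFactors.filter (fun p : ℕ => y2 < p), Real.log p := by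
    intro m hm
    rw [log_sqf _ (hsq m hm)]
    have hnn : ∀ p : ℕ, 0 ≤ Real.log (p : ℝ) := fun p => Real.log_natCast_nonneg p
    rw [sum_filter, sum_filter, sum_filter, ← sum_add_distrib, ← sum_add_distrib]
    apply sum_le_sum
    intro p hp
    have hp0 := (Nat.prime_of_mem_primeFactors hp).pos
    have := hnn p
    rcases Nat.lt_or_ge y2 p with h | h
    · rw [if_pos h]
      have g1 : 0 ≤ (if p ∈ Icc 1 y1 then Real.log (p : ℝ) else 0) := by split_ifs <;> linarith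
      have g2 : 0 ≤ (if p ∈ Ioc y1 y2 then Real.log (p : ℝ) else 0) := by split_ifs <;> linarith
      linarith
    · rcases Nat.lt_or_ge y1 p with h' | h'
      · rw [if_pos (mem_Ioc.2 ⟨h', h⟩)]
        have g1 : 0 ≤ (if p ∈ Icc 1 y1 then Real.log (p : ℝ) else 0) := by split_ifs <;> linarith
        have g2 : 0 ≤ (if y2 < p then Real.log (p : ℝ) else 0) := by split_ifs <;> linarith
        linarith
      · rw [if_pos (mem_Icc.2 ⟨hp0, h'⟩)]
        have g1 : 0 ≤ (if p ∈ Ioc y1 y2 then Real.log (p : ℝ) else 0) := by split_ifs <;> linarith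
        have g2 : 0 ≤ (if y2 < p then Real.log (p : ℝ) else 0) := by split_ifs <;> linarith
        linarith
  have hnn2 : ∀ (S : Finset ℕ), 0 ≤ ∑ p ∈ S, Real.log (p : ℝ) :=
    fun S => sum_nonneg fun p _ => Real.log_natCast_nonneg p
  have e2 : ∑ m ∈ As, ∑ p ∈ (m ^ 2 + a).primeFactors.filter (fun p : ℕ => p ∈ Icc 1 y1), Real.log p ≤
      (1 + ε) * X * ((1 - ε1) * L + CM) := by
    have g1 := sum_le_sum_of_subset_of_nonneg (f := fun m : ℕ => ∑ p ∈ (m ^ 2 + a).primeFactors.filter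
      (fun p : ℕ => p ∈ Icc 1 y1), Real.log (p : ℝ)) hAs fun _ _ _ => hnn2 _
    refine g1.trans ?_
    rw [swap A (Icc 1 y1) a ha fun p => Real.log (p : ℝ)]
    calc ∑ p ∈ (Icc 1 y1).filter Nat.Prime, Real.log p * ((A.filter fun m => p ∣ m ^ 2 + a).card : ℝ)
        ≤ ∑ p ∈ (Icc 1 y1).filter Nat.Prime, (1 + ε) * X * ((rt a p : ℝ) * Real.log p / p) := by
          apply sum_le_sum
          intro p hp
          rw [mem_filter, mem_Icc] at hp
          have hlp : 0 ≤ Real.log (p : ℝ) := Real.log_natCast_nonneg p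
          rcases Nat.lt_or_ge z p with h | h
          · have := mul_le_mul_of_nonneg_left (h1 p hp.2 h hp.1.2) hlp
            refine this.trans (le_of_eq ?_)
            ring
          · have : (A.filter fun m => p ∣ m ^ 2 + a) = ∅ := by
              rw [filter_eq_empty_iff]
              intro m hm
              exact hA m hm p hp.2 h
            rw [this]
            simp only [card_empty, Nat.cast_zero, mul_zero]
            positivity
      _ = (1 + ε) * X * ∑ p ∈ P y1, (rt a p : ℝ) * Real.log p / p := by rw [← mul_sum]; rfl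
      _ ≤ _ := mul_le_mul_of_nonneg_left h3 (by positivity)
  have e3 : ∑ m ∈ As, ∑ p ∈ (m ^ 2 + a).primeFactors.filter (fun p : ℕ => p ∈ Ioc y1 y2), Real.log p ≤
      T2 := by
    have g1 := sum_le_sum_of_subset_of_nonneg (f := fun m : ℕ => ∑ p ∈ (m ^ 2 + a).primeFactors.filter
      (fun p : ℕ => p ∈ Ioc y1 y2), Real.log (p : ℝ)) hAs fun _ _ _ => hnn2 _
    refine g1.trans ?_
    rw [swap A (Ioc y1 y2) a ha fun p => Real.log (p : ℝ)]
    exact h2
  have e4 : ∑ m ∈ As, ∑ p ∈ (m ^ 2 + a).primeFactors.filter (fun p : ℕ => y2 < p), Real.log p ≤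
      (2 - δ2) * L * B.card + (δ2 + ε) * L * (CT * δ2 * X) := by
    have hb : ∀ m ∈ As, ∑ p ∈ (m ^ 2 + a).primeFactors.filter (fun p : ℕ => y2 < p), Real.log (p : ℝ) ≤
        (if m ∈ B then (2 - δ2) * L else 0) + (if m ∈ B2 then (δ2 + ε) * L else 0) := by
      intro m hm
      have hm' := hAs hm
      have q2 : 0 ≤ (if m ∈ B2 then (δ2 + ε) * L else 0) := by
        split_ifs
        · positivity
        · exact le_rfl
      rcases ((m ^ 2 + a).primeFactors.filter (fun p : ℕ => y2 < p)).eq_empty_or_nonempty with h | ⟨p, hp⟩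
      · rw [h, sum_empty]
        have q1 : 0 ≤ (if m ∈ B then (2 - δ2) * L else 0) := by
          split_ifs
          · apply mul_nonneg _ hL; linarith
          · exact le_rfl
        linarith
      · rw [mem_filter, Nat.mem_primeFactors] at hp
        have hs : (m ^ 2 + a).primeFactors.filter (fun p : ℕ => y2 < p) = {p} := by
          ext q
          rw [mem_filter, Nat.mem_primeFactors, mem_singleton]
          constructor
          · rintro ⟨⟨q1, q2, _⟩, q3⟩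
            exact h4 m hm' q p q1 hp.1.1 q3 hp.2 q2 hp.1.2.1
          · rintro rfl
            exact ⟨hp.1, hp.2⟩
        rw [hs, sum_singleton]
        have hmB : m ∈ B := by
          rw [hB, mem_filter]
          exact ⟨hm, p, hp.1.1, hp.2, hp.1.2.1⟩
        rw [if_pos hmB]
        obtain ⟨g1, g2⟩ := h5 m hm' p hp.1.1 hp.1.2.1
        by_cases h : m ∈ B2
        · rw [if_pos h]
          linarith
        · rw [if_neg h]
          have := g2 h
          linarith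
    refine (sum_le_sum hb).trans ?_
    rw [sum_add_distrib]
    have g1 : ∑ m ∈ As, (if m ∈ B then (2 - δ2) * L else 0) = (2 - δ2) * L * B.card := by
      rw [← sum_filter, sum_const, nsmul_eq_mul, mul_comm]
      congr 3
      rw [filter_mem_eq_inter, inter_eq_right]
      exact filter_subset _ _
    have g2 : ∑ m ∈ As, (if m ∈ B2 then (δ2 + ε) * L else 0) ≤ (δ2 + ε) * L * (CT * δ2 * X) := by
      rw [← sum_filter, sum_const, nsmul_eq_mul, mul_comm]
      apply mul_le_mul_of_nonneg_left _ (by positivity)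
      refine le_trans ?_ h6
      rw [filter_mem_eq_inter]
      exact_mod_cast card_le_card inter_subset_right
    linarith
  have e5 := sum_le_sum e1
  rw [sum_add_distrib, sum_add_distrib] at e5
  linarith

end Pool.Agent.D0H41.LP
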