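import Mathlib
import Pool.Agent.D0H41.LP.Fin1

set_option autoImplicit false

namespace Pool.Agent.D0H41.LP

open Finset Filter

lemma ev_rpow (c : ℝ) (hc : 0 < c) (M : ℝ) : ∀ᶠ x : ℕ in atTop, M ≤ (x : ℝ) ^ c :=
  ((tendsto_rpow_atTop hc).comp tendsto_natCast_atTop_atTop).eventually_ge_atTop M

lemma ev_log (M : ℝ) : ∀ᶠ x : ℕ in atTop, M ≤ Real.log (x : ℝ) :=
  (Real.tendsto_log_atTop.comp tendsto_natCast_atTop_atTop).eventually_ge_atTop M

lemma ev_logpow (k : ℕ) (c : ℝ) (hc : 0 < c) (M : ℝ) (hM : 0 < M) :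
    ∀ᶠ x : ℕ in atTop, M * Real.log (x : ℝ) ^ k ≤ (x : ℝ) ^ c := by
  have h := (isLittleO_log_rpow_rpow_atTop (k : ℝ) hc).bound (show (0 : ℝ) < 1 / M by positivity)
  have h' := tendsto_natCast_atTop_atTop (R := ℝ) |>.eventually h
  filter_upwards [h', ev_log 0, eventually_ge_atTop 1] with x hx h0 h1
  have hx0 : (0 : ℝ) < x := by exact_mod_cast h1
  rw [Real.norm_of_nonneg (Real.rpow_nonneg h0 _), Real.norm_of_nonneg (Real.rpow_nonneg hx0.le _),
    Real.rpow_natCast] at hx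
  calc M * Real.log (x : ℝ) ^ k ≤ M * (1 / M * (x : ℝ) ^ c) := mul_le_mul_of_nonneg_left hx hM.le
    _ = (x : ℝ) ^ c := by field_simp

lemma floor_half (t : ℝ) (ht : 1 ≤ t) : t / 2 ≤ (⌊t⌋₊ : ℝ) := by
  have h1 := Nat.lt_floor_add_one t
  have h2 : (1 : ℝ) ≤ (⌊t⌋₊ : ℝ) := by exact_mod_cast (Nat.one_le_floor_iff t).2 ht
  linarith

lemma sft_dvd {a z m p : ℕ} (ha : a = 1 ∨ a = 3) (hm : Sft z m) (hp : p.Prime) (hpz : p ≤ z) :
    ¬ p ∣ m ^ 2 + a := by
  intro h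
  refine hm p ?_ ?_
  · unfold P
    rw [mem_filter, mem_Icc]
    exact ⟨⟨hp.pos, hpz⟩, hp⟩
  · unfold F
    rcases ha with rfl | rfl
    · exact dvd_mul_of_dvd_left h _
    · exact dvd_mul_of_dvd_right h _

open Classical in
/-- the exceptional sets are small -/
lemma card_As (x z a : ℕ) (t ε X E : ℝ) (ha : a = 1 ∨ a = 3) (ht : 0 ≤ t)
    (hA : |((((Icc 1 x).filter fun m => Sft z m).card : ℕ) : ℝ) - X| ≤ ε * X)
    (hQ : ((((Icc 1 x).filter fun m => ∃ p : ℕ, p.Prime ∧ z < p ∧ p ^ 2 ∣ m ^ 2 + a).card : ℕ) : ℝ) ≤ E)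
    (hE : t + E ≤ ε * X) :
    (1 - 2 * ε) * X ≤ ((((Icc 1 x).filter fun m => Sft z m).filter fun m =>
      Squarefree (m ^ 2 + a) ∧ t < m).card : ℝ) := by
  set A := (Icc 1 x).filter fun m => Sft z m with hAd
  have hsub : A ⊆ (A.filter fun m => Squarefree (m ^ 2 + a) ∧ t < m) ∪
      (((Icc 1 x).filter fun m => ∃ p : ℕ, p.Prime ∧ z < p ∧ p ^ 2 ∣ m ^ 2 + a) ∪ Icc 1 ⌊t⌋₊) := by
    intro m hm
    have hm' := hm
    rw [hAd, mem_filter] at hm'
    by_cases h1 : Squarefree (m ^ 2 + a)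
    · by_cases h2 : t < m
      · exact mem_union_left _ (mem_filter.2 ⟨hm, h1, h2⟩)
      · apply mem_union_right _ (mem_union_right _ _)
        rw [mem_Icc] at hm' ⊢
        exact ⟨hm'.1.1, Nat.le_floor (not_lt.1 h2)⟩
    · apply mem_union_right _ (mem_union_left _ _)
      rw [mem_filter]
      refine ⟨hm'.1, ?_⟩
      rw [Nat.squarefree_iff_prime_squarefree] at h1
      push Not at h1
      obtain ⟨p, hp, hpp⟩ := h1
      refine ⟨p, hp, ?_, by rwa [pow_two]⟩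
      by_contra hcon
      push Not at hcon
      exact sft_dvd ha hm'.2 hp hcon (dvd_trans (dvd_mul_right p p) hpp)
  have h1 := (card_le_card hsub).trans ((card_union_le _ _).trans (Nat.add_le_add_left (card_union_le _ _) _))
  have h2 : (A.card : ℝ) ≤ ((A.filter fun m => Squarefree (m ^ 2 + a) ∧ t < m).card : ℝ) +
      ((((Icc 1 x).filter fun m => ∃ p : ℕ, p.Prime ∧ z < p ∧ p ^ 2 ∣ m ^ 2 + a).card : ℝ) +
      ((Icc 1 ⌊t⌋₊).card : ℝ)) := by exact_mod_cast h1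
  have h3 : ((Icc 1 ⌊t⌋₊).card : ℝ) ≤ t := by
    rw [Nat.card_Icc, Nat.add_sub_cancel]
    exact Nat.floor_le ht
  have h4 := (abs_le.1 hA).1
  linarith

open Classical in
/-- the middle primes -/
lemma mid (CB e0 : ℝ) (xB zB : ℕ) (hCB : 0 < CB)
    (hB : ∀ x : ℕ, xB ≤ x →
      ∀ a : ℕ, (a = 1 ∨ a = 3) → ∀ z : ℕ, zB ≤ z → (z : ℝ) ≤ (x : ℝ) ^ e0 → ∀ N : ℕ,
      (x : ℝ) ^ (1 - e0) ≤ N → (N : ℝ) ≤ (x : ℝ) ^ (1 + e0) →
        ((((Icc 1 x ×ˢ Ioc N (2 * N)).filter fun t => Sft z t.1 ∧ t.2.Prime ∧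
          t.2 ∣ t.1 ^ 2 + a).card : ℕ) : ℝ) ≤ CB * x * VF z / Real.log x)
    (x z a y1 y2 I : ℕ) (ha : a = 1 ∨ a = 3) (hx : xB ≤ x) (hx1 : 1 < x) (hz : zB ≤ z)
    (hzx : (z : ℝ) ≤ (x : ℝ) ^ e0) (hy1 : (x : ℝ) ^ (1 - e0) ≤ y1) (hy2 : y2 ≤ 2 ^ I * y1)
    (hI : (((2 ^ I * y1 : ℕ)) : ℝ) ≤ (x : ℝ) ^ (1 + e0)) (hI3 : (((2 ^ I * y1 : ℕ)) : ℝ) ≤ (x : ℝ) ^ (3 : ℝ)) :
    ∑ p ∈ (Ioc y1 y2).filter Nat.Prime,
      Real.log p * ((((Icc 1 x).filter fun m => Sft z m).filter fun m => p ∣ m ^ 2 + a).card : ℝ) ≤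
      I * (3 * CB * (x * VF z)) := by
  set A := (Icc 1 x).filter fun m => Sft z m with hA
  have hx1r : (1 : ℝ) < x := by exact_mod_cast hx1
  have hL : 0 < Real.log x := Real.log_pos hx1r
  set f : ℕ → ℝ := fun p => if p.Prime then
    Real.log p * ((A.filter fun m => p ∣ m ^ 2 + a).card : ℝ) else 0 with hf
  have hf0 : ∀ n, 0 ≤ f n := by
    intro n
    rw [hf]
    simp only
    split_ifs
    · exact mul_nonneg (Real.log_natCast_nonneg n) (Nat.cast_nonneg _)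
    · exact le_rfl
  have e1 : ∑ p ∈ (Ioc y1 y2).filter Nat.Prime,
      Real.log p * ((A.filter fun m => p ∣ m ^ 2 + a).card : ℝ) = ∑ p ∈ Ioc y1 y2, f p := by
    rw [sum_filter]
  rw [e1]
  refine (dyad f hf0 y1 y2 I hy2).trans ?_
  have e2 : ∀ i ∈ range I, ∑ p ∈ Ioc (2 ^ i * y1) (2 * (2 ^ i * y1)), f p ≤ 3 * CB * (x * VF z) := by
    intro i hi
    rw [mem_range] at hi
    set N := 2 ^ i * y1 with hN
    have h2N : 2 * N ≤ 2 ^ I * y1 := by
      have : 2 ^ (i + 1) ≤ 2 ^ I := Nat.pow_le_pow_right (by norm_num) hi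
      calc 2 * N = 2 ^ (i + 1) * y1 := by rw [hN, pow_succ]; ring
        _ ≤ _ := Nat.mul_le_mul_right _ this
    have h1N : y1 ≤ N := by
      rw [hN]
      exact Nat.le_mul_of_pos_left _ (by positivity)
    have hNr : (N : ℝ) ≤ (x : ℝ) ^ (1 + e0) := by
      refine le_trans ?_ hI
      exact_mod_cast (by omega : N ≤ 2 ^ I * y1)
    have hNl : (x : ℝ) ^ (1 - e0) ≤ N := hy1.trans (by exact_mod_cast h1N)
    have hb := hB x hx a ha z hz hzx N hNl hNr
    have hlog : ∀ p ∈ Ioc N (2 * N), Real.log (p : ℝ) ≤ 3 * Real.log x := by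
      intro p hp
      rw [mem_Ioc] at hp
      have hp0 : (0 : ℝ) < p := by exact_mod_cast (by omega : 0 < p)
      have : (p : ℝ) ≤ (x : ℝ) ^ (3 : ℝ) := by
        refine le_trans ?_ hI3
        exact_mod_cast hp.2.trans h2N
      have h := Real.log_le_log hp0 this
      rwa [Real.log_rpow (by linarith)] at h
    have hsum : ∑ p ∈ Ioc N (2 * N), f p ≤ 3 * Real.log x *
        ((((Icc 1 x ×ˢ Ioc N (2 * N)).filter fun t => Sft z t.1 ∧ t.2.Prime ∧
          t.2 ∣ t.1 ^ 2 + a).card : ℕ) : ℝ) := by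
      have hc : (((Icc 1 x ×ˢ Ioc N (2 * N)).filter fun t => Sft z t.1 ∧ t.2.Prime ∧
          t.2 ∣ t.1 ^ 2 + a).card) = ∑ p ∈ Ioc N (2 * N), (if p.Prime then
            (A.filter fun m => p ∣ m ^ 2 + a).card else 0) := by
        rw [card_filter, sum_product_right]
        apply sum_congr rfl
        intro p _
        rw [← card_filter]
        split_ifs with hp
        · rw [hA, filter_filter]
          congr 1
          ext m
          simp only [mem_filter, hp, true_and]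
        · rw [card_eq_zero, filter_eq_empty_iff]
          intro m _ h
          exact hp h.2.1
      rw [hc, Nat.cast_sum, mul_sum]
      apply sum_le_sum
      intro p hp
      rw [hf]
      simp only
      split_ifs
      · exact mul_le_mul_of_nonneg_right (hlog p hp) (Nat.cast_nonneg _)
      · simp
    refine hsum.trans ?_
    calc 3 * Real.log x * _ ≤ 3 * Real.log x * (CB * x * VF z / Real.log x) :=
          mul_le_mul_of_nonneg_left hb (by positivity)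
      _ = 3 * CB * (x * VF z) := by field_simp
  refine (sum_le_sum e2).trans (le_of_eq ?_)
  rw [sum_const, card_range, nsmul_eq_mul]

end Pool.Agent.D0H41.LP
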