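import Mathlib
import Pool.Agent.D0H41.LP.Fin2

set_option autoImplicit false

namespace Pool.Agent.D0H41.LP

open Finset Filter

lemma err_bound (x z : ℕ) (c ε η CS CP L X : ℝ) (hx4 : (4 : ℝ) ≤ x) (hc1 : c ≤ ε) (hc2 : c ≤ η)
    (hc3 : c ≤ 1 / 3) (hε : 0 < ε) (hCS : 0 < CS) (hCP : 1 ≤ CP) (hL1 : 1 ≤ L)
    (hz2 : (2 : ℝ) ≤ z) (hzhalf : (x : ℝ) ^ η / 2 ≤ z)
    (g3 : (1 + 4 * CS) * CP / ε * L ^ 3 ≤ (x : ℝ) ^ c) (hXL : x / (CP * L ^ 2) ≤ X) :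
    (x : ℝ) ^ (1 - ε) + CS * (x / z + (x : ℝ) ^ (2 / 3 : ℝ) * (L + 1)) ≤ ε * X := by
  have hx0 : (0 : ℝ) < x := by linarith
  have hx1 : (1 : ℝ) ≤ x := by linarith
  have hsplit : ∀ s : ℝ, c ≤ s → (x : ℝ) ^ (1 - s) ≤ (x : ℝ) ^ (1 - c) := fun s hs =>
    Real.rpow_le_rpow_of_exponent_le hx1 (by linarith)
  have q1 := hsplit ε hc1
  have q2 : (x : ℝ) / z ≤ 2 * (x : ℝ) ^ (1 - c) := by
    rw [div_le_iff₀ (by linarith)]
    have w1 : (x : ℝ) ^ (1 - η) * (x : ℝ) ^ η = x := by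
      rw [← Real.rpow_add hx0]
      simp
    have w2 := hsplit η hc2
    have w3 : 0 < (x : ℝ) ^ (1 - η) := by positivity
    calc (x : ℝ) = (x : ℝ) ^ (1 - η) * (x : ℝ) ^ η := w1.symm
      _ ≤ (x : ℝ) ^ (1 - η) * (2 * z) := mul_le_mul_of_nonneg_left (by linarith) w3.le
      _ ≤ (x : ℝ) ^ (1 - c) * (2 * z) := mul_le_mul_of_nonneg_right w2 (by positivity)
      _ = _ := by ring
  have q3 : (x : ℝ) ^ (2 / 3 : ℝ) ≤ (x : ℝ) ^ (1 - c) :=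
    Real.rpow_le_rpow_of_exponent_le hx1 (by linarith)
  set Y := (x : ℝ) ^ (1 - c) with hY
  have hY0 : 0 < Y := by positivity
  have q4 : (x : ℝ) ^ (1 - ε) + CS * (x / z + (x : ℝ) ^ (2 / 3 : ℝ) * (L + 1)) ≤
      (1 + 4 * CS) * L * Y := by
    have w1 : (x : ℝ) ^ (2 / 3 : ℝ) * (L + 1) ≤ Y * (L + 1) :=
      mul_le_mul_of_nonneg_right q3 (by linarith)
    have w2 : CS * (x / z + (x : ℝ) ^ (2 / 3 : ℝ) * (L + 1)) ≤ CS * (2 * Y + Y * (L + 1)) :=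
      mul_le_mul_of_nonneg_left (by linarith) hCS.le
    have w4 : Y ≤ L * Y := le_mul_of_one_le_left hY0.le hL1
    have w3 : CS * (2 * Y + Y * (L + 1)) ≤ CS * (4 * L * Y) := by
      apply mul_le_mul_of_nonneg_left _ hCS.le
      linarith
    linarith
  refine q4.trans ?_
  have q5 : Y * (x : ℝ) ^ c = x := by
    rw [hY, ← Real.rpow_add hx0]
    simp
  have q6 : (1 + 4 * CS) * L * Y ≤ ε * (x / (CP * L ^ 2)) := by
    have hCP0 : 0 < CP := by linarith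
    rw [← mul_div_assoc, le_div_iff₀ (by positivity)]
    calc (1 + 4 * CS) * L * Y * (CP * L ^ 2) =
          ε * Y * ((1 + 4 * CS) * CP / ε * L ^ 3) := by
            field_simp
      _ ≤ ε * Y * (x : ℝ) ^ c := mul_le_mul_of_nonneg_left g3 (by positivity)
      _ = ε * x := by rw [mul_assoc, q5]
  exact q6.trans (mul_le_mul_of_nonneg_left hXL hε.le)

lemma final_ineq (δ δ2 ε L X b CB CM CT I : ℝ) (hδ2 : 0 < δ2) (hδ2' : δ2 ≤ 1 / 4)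
    (hε : ε = δ2 / 1000) (hδ : 0 < δ) (hL : 1 ≤ L) (hX : 0 < X) (hCB : 0 < CB) (hCM : 0 < CM)
    (hCT : 0 < CT)
    (h1 : CB * δ ≤ δ2 / 384) (h2 : CT * δ2 ≤ 1 / 32) (h3 : 2 * CM + 6 * CB ≤ δ2 / 32 * L)
    (hI : I ≤ 3 * δ * L + 2)
    (h : 2 * (1 - ε) * L * ((1 - 2 * ε) * X) ≤ (1 + ε) * X * ((1 - δ) * L + CM) +
      I * (3 * CB * X) + (2 - δ2) * L * b + (δ2 + ε) * L * (CT * δ2 * X)) :
    (1 / 2 + δ2 / 8) * X ≤ b := by
  have hL0 : 0 < L := by linarith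
  have hLX : 0 < L * X := by positivity
  have e1 : I * (3 * CB * X) ≤ 9 * (CB * δ) * (L * X) + 6 * CB * X := by
    calc I * (3 * CB * X) ≤ (3 * δ * L + 2) * (3 * CB * X) :=
          mul_le_mul_of_nonneg_right hI (by positivity)
      _ = _ := by ring
  have e2 : 9 * (CB * δ) * (L * X) ≤ 9 * (δ2 / 384) * (L * X) := by
    apply mul_le_mul_of_nonneg_right _ hLX.le
    linarith
  have e3 : (δ2 + ε) * L * (CT * δ2 * X) ≤ (2 * δ2) * (1 / 32) * (L * X) := by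
    have : (δ2 + ε) * (CT * δ2) ≤ (2 * δ2) * (1 / 32) := by
      apply mul_le_mul _ h2 (by positivity) (by positivity)
      rw [hε]; linarith
    calc (δ2 + ε) * L * (CT * δ2 * X) = (δ2 + ε) * (CT * δ2) * (L * X) := by ring
      _ ≤ _ := mul_le_mul_of_nonneg_right this hLX.le
  have e4 : (1 + ε) * X * ((1 - δ) * L + CM) ≤ (1 + ε) * (L * X) + 2 * CM * X := by
    have a1 : (1 + ε) * X * CM ≤ 2 * CM * X := by
      have : (1 + ε) ≤ 2 := by rw [hε]; linarith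
      calc (1 + ε) * X * CM = (1 + ε) * (X * CM) := by ring
        _ ≤ 2 * (X * CM) := mul_le_mul_of_nonneg_right this (by positivity)
        _ = _ := by ring
    have a2 : (1 + ε) * X * ((1 - δ) * L) ≤ (1 + ε) * (L * X) := by
      have a3 : 0 ≤ (1 + ε) * X * (δ * L) := by
        have : 0 ≤ ε := by rw [hε]; positivity
        positivity
      linarith
    linarith
  have e5 : (2 * CM + 6 * CB) * X ≤ δ2 / 32 * (L * X) := by
    calc (2 * CM + 6 * CB) * X ≤ (δ2 / 32 * L) * X := mul_le_mul_of_nonneg_right h3 hX.le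
      _ = _ := by ring
  have e6 : (2 - 6 * ε) * (L * X) ≤ 2 * (1 - ε) * L * ((1 - 2 * ε) * X) := by
    have : 0 ≤ ε ^ 2 * (L * X) := by positivity
    linarith
  have e7 : (1 - δ2 / 4) * (L * X) ≤ (2 - δ2) * b * L := by
    have : 7 * ε * (L * X) = 7 * (δ2 / 1000) * (L * X) := by rw [hε]
    have h9 : 0 < δ2 * (L * X) := by positivity
    linarith
  have e8 : (1 - δ2 / 4) * X ≤ (2 - δ2) * b := by
    have : ((1 - δ2 / 4) * X) * L ≤ ((2 - δ2) * b) * L := by linarith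
    exact le_of_mul_le_mul_right this hL0
  have e9 : (2 - δ2) * ((1 / 2 + δ2 / 8) * X) ≤ (2 - δ2) * b := by
    refine le_trans ?_ e8
    have : 0 ≤ δ2 ^ 2 * X := by positivity
    linarith
  exact le_of_mul_le_mul_left e9 (by linarith)

/-- number of dyadic intervals -/
lemma dy_num (x : ℕ) (δ : ℝ) (hx : (4 : ℝ) ≤ x) (hδ : 0 < δ) :
    ∃ I : ℕ, (I : ℝ) ≤ 3 * δ * Real.log x + 2 ∧ 2 * (x : ℝ) ^ (2 * δ) ≤ (2 : ℝ) ^ I ∧
      (2 : ℝ) ^ I ≤ 4 * (x : ℝ) ^ (2 * δ) := by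
  have hx0 : (0 : ℝ) < x := by linarith
  have hL0 : 0 < Real.log x := Real.log_pos (by linarith)
  have hlog2 : (0.69 : ℝ) < Real.log 2 := by
    have := Real.log_two_gt_d9; linarith
  have hlog20 : Real.log 2 ≠ 0 := by linarith
  set L := Real.log x with hL
  set I := ⌈2 * δ * L / Real.log 2⌉₊ + 1 with hI
  have hI1 : 2 * δ * L / Real.log 2 + 1 ≤ (I : ℝ) := by
    rw [hI]; push_cast
    linarith [Nat.le_ceil (2 * δ * L / Real.log 2)]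
  have hI2 : (I : ℝ) ≤ 2 * δ * L / Real.log 2 + 2 := by
    rw [hI]; push_cast
    linarith [(Nat.ceil_lt_add_one (show 0 ≤ 2 * δ * L / Real.log 2 by positivity)).le]
  refine ⟨I, ?_, ?_, ?_⟩
  · refine hI2.trans ?_
    have : 2 * δ * L / Real.log 2 ≤ 3 * δ * L := by
      rw [div_le_iff₀ (by linarith)]
      have : 0 < δ * L := by positivity
      nlinarith
    linarith
  · have : (2 : ℝ) * (x : ℝ) ^ (2 * δ) = (2 : ℝ) ^ (2 * δ * L / Real.log 2 + 1) := by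
      rw [Real.rpow_add (by norm_num), Real.rpow_one, Real.rpow_def_of_pos (by norm_num : (0 : ℝ) < 2),
        Real.rpow_def_of_pos hx0, mul_comm]
      congr 2
      field_simp
      exact hL.symm
    rw [this, ← Real.rpow_natCast]
    exact Real.rpow_le_rpow_of_exponent_le (by norm_num) hI1
  · have : (4 : ℝ) * (x : ℝ) ^ (2 * δ) = (2 : ℝ) ^ (2 * δ * L / Real.log 2 + 2) := by
      rw [Real.rpow_add (by norm_num), Real.rpow_two, Real.rpow_def_of_pos (by norm_num : (0 : ℝ) < 2),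
        Real.rpow_def_of_pos hx0, mul_comm]
      congr 1
      · congr 1
        field_simp
        exact hL.symm
      · norm_num
    rw [this, ← Real.rpow_natCast]
    exact Real.rpow_le_rpow_of_exponent_le (by norm_num) hI2

/-- the intervals `y1`, `y2` -/
lemma ys (x : ℕ) (δ e0 : ℝ) (hx : (4 : ℝ) ≤ x) (hδ : 0 < δ) (hδ4 : δ ≤ 1 / 4)
    (g5 : 4 ≤ (x : ℝ) ^ (e0 - δ)) (g8 : 4 ≤ (x : ℝ) ^ (1 - δ)) :
    ∃ I : ℕ, (I : ℝ) ≤ 3 * δ * Real.log x + 2 ∧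
      2 ≤ ⌊(x : ℝ) ^ (1 - δ)⌋₊ ∧
      ⌊(x : ℝ) ^ (1 + δ)⌋₊ ≤ 2 ^ I * ⌊(x : ℝ) ^ (1 - δ)⌋₊ ∧
      (((2 ^ I * ⌊(x : ℝ) ^ (1 - δ)⌋₊ : ℕ)) : ℝ) ≤ (x : ℝ) ^ (1 + e0) ∧
      (((2 ^ I * ⌊(x : ℝ) ^ (1 - δ)⌋₊ : ℕ)) : ℝ) ≤ (x : ℝ) ^ (3 : ℝ) ∧
      (x : ℝ) ^ (1 - e0) ≤ (⌊(x : ℝ) ^ (1 - δ)⌋₊ : ℝ) := by
  have hx0 : (0 : ℝ) < x := by linarith
  have hx1 : (1 : ℝ) ≤ x := by linarith
  obtain ⟨I, hI, h2I, h2I'⟩ := dy_num x δ hx hδ
  set y1 := ⌊(x : ℝ) ^ (1 - δ)⌋₊ with hy1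
  have hy1le : (y1 : ℝ) ≤ (x : ℝ) ^ (1 - δ) := Nat.floor_le (by positivity)
  have hy1half : (x : ℝ) ^ (1 - δ) / 2 ≤ y1 := floor_half _ (by linarith)
  have hy14 : 2 ≤ y1 := by
    have : (2 : ℝ) ≤ y1 := by linarith
    exact_mod_cast this
  have hxx : (x : ℝ) ^ (2 * δ) * (x : ℝ) ^ (1 - δ) = (x : ℝ) ^ (1 + δ) := by
    rw [← Real.rpow_add hx0]; congr 1; ring
  have hIup : (((2 ^ I * y1 : ℕ)) : ℝ) ≤ 4 * (x : ℝ) ^ (1 + δ) := by
    push_cast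
    calc (2 : ℝ) ^ I * y1 ≤ (4 * (x : ℝ) ^ (2 * δ)) * (x : ℝ) ^ (1 - δ) :=
          mul_le_mul h2I' hy1le (by positivity) (by positivity)
      _ = 4 * (x : ℝ) ^ (1 + δ) := by rw [← hxx]; ring
  refine ⟨I, hI, hy14, ?_, ?_, ?_, ?_⟩
  · have : (⌊(x : ℝ) ^ (1 + δ)⌋₊ : ℝ) ≤ ((2 ^ I * y1 : ℕ) : ℝ) := by
      push_cast
      calc (⌊(x : ℝ) ^ (1 + δ)⌋₊ : ℝ) ≤ (x : ℝ) ^ (1 + δ) := Nat.floor_le (by positivity)
        _ = (2 * (x : ℝ) ^ (2 * δ)) * ((x : ℝ) ^ (1 - δ) / 2) := by rw [← hxx]; ring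
        _ ≤ 2 ^ I * y1 := mul_le_mul h2I hy1half (by positivity) (by positivity)
    exact_mod_cast this
  · refine hIup.trans ?_
    calc 4 * (x : ℝ) ^ (1 + δ) ≤ (x : ℝ) ^ (e0 - δ) * (x : ℝ) ^ (1 + δ) :=
          mul_le_mul_of_nonneg_right g5 (by positivity)
      _ = (x : ℝ) ^ (1 + e0) := by rw [← Real.rpow_add hx0]; congr 1; ring
  · refine hIup.trans ?_
    calc 4 * (x : ℝ) ^ (1 + δ) ≤ (x : ℝ) ^ (1 : ℝ) * (x : ℝ) ^ (1 + δ) := by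
          rw [Real.rpow_one]
          exact mul_le_mul_of_nonneg_right hx (by positivity)
      _ = (x : ℝ) ^ (2 + δ) := by
          rw [← Real.rpow_add hx0]; congr 1; ring
      _ ≤ _ := Real.rpow_le_rpow_of_exponent_le hx1 (by linarith)
  · refine le_trans ?_ hy1half
    rw [le_div_iff₀ (by norm_num)]
    calc (x : ℝ) ^ (1 - e0) * 2 ≤ (x : ℝ) ^ (1 - e0) * (x : ℝ) ^ (e0 - δ) :=
          mul_le_mul_of_nonneg_left (by linarith) (by positivity)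
      _ = (x : ℝ) ^ (1 - δ) := by rw [← Real.rpow_add hx0]; congr 1; ring

end Pool.Agent.D0H41.LP
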