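import Mathlib
import Pool.Agent.D0H41.LP.Fin2b

set_option autoImplicit false

namespace Pool.Agent.D0H41.LP

open Finset Filter

open Classical in
/-- for each of the two polynomials: more than one half of the sifted set -/
theorem half (hB : S_BETA) (hS : S_SIV) (hM : S_MERL) (hP : S_MERP) (hT : S_TOP) (hQ : S_SQU) :
    ∃ δ2 δ η CP : ℝ, 0 < δ2 ∧ 0 < δ ∧ 0 < η ∧ η ≤ 1 ∧ 1 ≤ CP ∧ ∀ᶠ x : ℕ in atTop,
      2 ≤ ⌊(x : ℝ) ^ η⌋₊ ∧
      x / (CP * Real.log x ^ 2) ≤ x * VF ⌊(x : ℝ) ^ η⌋₊ ∧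
      ((((Icc 1 x).filter fun m => Sft ⌊(x : ℝ) ^ η⌋₊ m).card : ℕ) : ℝ) ≤
        (1 + δ2 / 1000) * (x * VF ⌊(x : ℝ) ^ η⌋₊) ∧
      ∀ a : ℕ, (a = 1 ∨ a = 3) → (1 / 2 + δ2 / 8) * (x * VF ⌊(x : ℝ) ^ η⌋₊) ≤
        ((((Icc 1 x).filter fun m => Sft ⌊(x : ℝ) ^ η⌋₊ m).filter fun m =>
          Squarefree (m ^ 2 + a) ∧ ∃ p : ℕ, p.Prime ∧ (x : ℝ) ^ (1 + δ) < p ∧ p ∣ m ^ 2 + a).card : ℝ) := by
  obtain ⟨CB, e0, zB, hCB, he0, xB, hB⟩ := hB
  obtain ⟨CM, hCM, hM⟩ := hM
  obtain ⟨CP, hCP, -, hP2⟩ := hP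
  obtain ⟨CT, hCT, hT⟩ := hT
  obtain ⟨CS, hCS, hQ⟩ := hQ
  set δ2 : ℝ := min (1 / 4) (1 / (32 * CT)) with hδ2
  have hδ2pos : 0 < δ2 := lt_min (by norm_num) (by positivity)
  have hδ2le : δ2 ≤ 1 / 4 := min_le_left _ _
  have hδ2CT : CT * δ2 ≤ 1 / 32 := by
    have : δ2 ≤ 1 / (32 * CT) := min_le_right _ _
    calc CT * δ2 ≤ CT * (1 / (32 * CT)) := mul_le_mul_of_nonneg_left this hCT.le
      _ = 1 / 32 := by field_simp
  set ε : ℝ := δ2 / 1000 with hε
  have hεpos : 0 < ε := by positivity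
  set δ : ℝ := min (δ2 / (384 * CB)) (min (e0 / 8) (1 / 4)) with hδ
  have hδpos : 0 < δ := lt_min (by positivity) (lt_min (by positivity) (by norm_num))
  have hδ1 : CB * δ ≤ δ2 / 384 := by
    have : δ ≤ δ2 / (384 * CB) := min_le_left _ _
    calc CB * δ ≤ CB * (δ2 / (384 * CB)) := mul_le_mul_of_nonneg_left this hCB.le
      _ = δ2 / 384 := by field_simp
  have hδ3 : δ ≤ e0 / 8 := (min_le_right _ _).trans (min_le_left _ _)
  have hδ4 : δ ≤ 1 / 4 := (min_le_right _ _).trans (min_le_right _ _)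
  obtain ⟨ηT, hηT, xT, zT, hT⟩ := hT δ2 hδ2pos (by linarith)
  obtain ⟨K, zS, hS⟩ := hS ε hεpos
  set η : ℝ := min (δ / (K + 1)) (min e0 (min ηT (1 / 2))) with hη
  have hηpos : 0 < η := lt_min (by positivity) (lt_min he0 (lt_min hηT (by norm_num)))
  have hη1 : η ≤ δ / (K + 1) := min_le_left _ _
  have hη2 : η ≤ e0 := (min_le_right _ _).trans (min_le_left _ _)
  have hη3 : η ≤ ηT := (min_le_right _ _).trans ((min_le_right _ _).trans (min_le_left _ _))
  have hη4 : η ≤ 1 / 2 := (min_le_right _ _).trans ((min_le_right _ _).trans (min_le_right _ _))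
  have hηK : η * K ≤ δ := by
    have hK : (0 : ℝ) < K + 1 := by positivity
    rw [le_div_iff₀ hK] at hη1
    nlinarith
  set c : ℝ := min ε (min η (1 / 3)) with hc
  have hcpos : 0 < c := lt_min hεpos (lt_min hηpos (by norm_num))
  have hc1 : c ≤ ε := min_le_left _ _
  have hc2 : c ≤ η := (min_le_right _ _).trans (min_le_left _ _)
  have hc3 : c ≤ 1 / 3 := (min_le_right _ _).trans (min_le_right _ _)
  refine ⟨δ2, δ, η, CP, hδ2pos, hδpos, hηpos, by linarith, hCP, ?_⟩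
  filter_upwards [ev_rpow η hηpos ((zB + zT + zS + 4 : ℕ) : ℝ), eventually_ge_atTop (xB + xT + 4),
    ev_logpow 3 c hcpos ((1 + 4 * CS) * CP / ε) (by positivity),
    ev_log (max 1 ((2 * CM + 6 * CB) / (δ2 / 32))), ev_rpow (e0 - δ) (by linarith) 4,
    ev_rpow (2 * δ) (by positivity) 4, ev_rpow ε hεpos 4, ev_rpow (1 - δ) (by linarith) 4] with
    x g1 g2 g3 g4 g5 g6 g7 g8
  have hx4 : 4 ≤ x := by omega
  have hxr : (4 : ℝ) ≤ x := by exact_mod_cast hx4
  have hx0 : (0 : ℝ) < x := by linarith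
  have hx1 : (1 : ℝ) ≤ x := by linarith
  set L := Real.log (x : ℝ) with hL
  have hL1 : 1 ≤ L := (le_max_left _ _).trans g4
  have hL0 : 0 < L := by linarith
  have hLM : (2 * CM + 6 * CB) ≤ δ2 / 32 * L := by
    have := (le_max_right _ _).trans g4
    rw [div_le_iff₀ (by positivity)] at this
    linarith
  set z := ⌊(x : ℝ) ^ η⌋₊ with hz
  have hzle : (z : ℝ) ≤ (x : ℝ) ^ η := Nat.floor_le (by positivity)
  have hzge : zB + zT + zS + 4 ≤ z := Nat.le_floor g1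
  have hz2 : 2 ≤ z := by omega
  have hzhalf : (x : ℝ) ^ η / 2 ≤ z := floor_half _ (by
    refine le_trans ?_ g1
    push_cast
    have h1 : (0 : ℝ) ≤ zB := Nat.cast_nonneg _
    have h2 : (0 : ℝ) ≤ zT := Nat.cast_nonneg _
    have h3 : (0 : ℝ) ≤ zS := Nat.cast_nonneg _
    linarith)
  have hzr : (2 : ℝ) ≤ z := by exact_mod_cast hz2
  have hzx' : (z : ℝ) ≤ x := hzle.trans (by
    calc (x : ℝ) ^ η ≤ (x : ℝ) ^ (1 : ℝ) := Real.rpow_le_rpow_of_exponent_le hx1 (by linarith)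
      _ = x := Real.rpow_one _)
  have hzx : z ≤ x := by exact_mod_cast hzx'
  have hlz : 0 < Real.log z := Real.log_pos (by linarith)
  have hlzL : Real.log z ≤ L := Real.log_le_log (by linarith) hzx'
  have hV := hP2 z hz2
  have hVL : 1 / (CP * L ^ 2) ≤ VF z := by
    refine le_trans ?_ hV
    apply one_div_le_one_div_of_le (by positivity)
    apply mul_le_mul_of_nonneg_left _ (by linarith)
    exact pow_le_pow_left₀ hlz.le hlzL 2
  set X : ℝ := x * VF z with hX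
  have hXL : x / (CP * L ^ 2) ≤ X := by
    calc x / (CP * L ^ 2) = x * (1 / (CP * L ^ 2)) := by rw [mul_one_div]
      _ ≤ X := mul_le_mul_of_nonneg_left hVL hx0.le
  have hXpos : 0 < X := lt_of_lt_of_le (by positivity) hXL
  have hKδ : ((z ^ K : ℕ) : ℝ) ≤ (x : ℝ) ^ δ := by
    push_cast
    calc (z : ℝ) ^ K ≤ ((x : ℝ) ^ η) ^ K := pow_le_pow_left₀ (by positivity) hzle K
      _ = (x : ℝ) ^ (η * K) := by rw [← Real.rpow_natCast, ← Real.rpow_mul hx0.le]
      _ ≤ _ := Real.rpow_le_rpow_of_exponent_le hx1 hηK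
  have hKx : z ^ K ≤ x := by
    have : ((z ^ K : ℕ) : ℝ) ≤ x := hKδ.trans (by
      calc (x : ℝ) ^ δ ≤ (x : ℝ) ^ (1 : ℝ) := Real.rpow_le_rpow_of_exponent_le hx1 (by linarith)
        _ = x := Real.rpow_one _)
    exact_mod_cast this
  obtain ⟨hS1, hS2⟩ := hS z (by omega) x
  have hA := hS1 hKx
  refine ⟨hz2, hXL, ?_, fun a ha => ?_⟩
  · have := (abs_le.1 hA).2
    rw [← hX] at this
    change _ ≤ (1 + ε) * X
    linarith
  -- the exceptional sets
  have hE := err_bound x z c ε η CS CP L X hxr hc1 hc2 hc3 hεpos hCS hCP hL1 hzr hzhalf g3 hXL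
  have hAs := card_As x z a ((x : ℝ) ^ (1 - ε)) ε X _ ha (by positivity) hA
    (hQ x z hz2 hzx a ha) hE
  have hapos : 0 < a := by rcases ha with rfl | rfl <;> norm_num
  have ha3 : a ≤ 3 := by rcases ha with rfl | rfl <;> norm_num
  set A := (Icc 1 x).filter fun m => Sft z m with hAd
  set As := A.filter fun m => Squarefree (m ^ 2 + a) ∧ (x : ℝ) ^ (1 - ε) < m with hAsd
  set y1 := ⌊(x : ℝ) ^ (1 - δ)⌋₊ with hy1
  set y2 := ⌊(x : ℝ) ^ (1 + δ)⌋₊ with hy2
  set B2 := (Icc 1 x).filter fun m => Sft z m ∧ ∃ p : ℕ, p.Prime ∧ (x : ℝ) ^ (2 - δ2) < p ∧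
      p ∣ m ^ 2 + a with hB2
  have hy1le : (y1 : ℝ) ≤ (x : ℝ) ^ (1 - δ) := Nat.floor_le (by positivity)
  have hmx : ∀ m ∈ A, ((m ^ 2 + a : ℕ) : ℝ) ≤ 4 * (x : ℝ) ^ 2 := by
    intro m hm
    rw [hAd, mem_filter, mem_Icc] at hm
    have h1 : m ^ 2 ≤ x ^ 2 := Nat.pow_le_pow_left hm.1.2 2
    have h2 : m ^ 2 + a ≤ x ^ 2 + 3 := by omega
    have h3 : ((m ^ 2 + a : ℕ) : ℝ) ≤ ((x ^ 2 + 3 : ℕ) : ℝ) := by exact_mod_cast h2
    push_cast at h3 ⊢
    nlinarith
  have hx2ε : 4 * (x : ℝ) ^ 2 ≤ (x : ℝ) ^ (2 + ε) := by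
    rw [Real.rpow_add hx0, Real.rpow_two, mul_comm]
    exact mul_le_mul_of_nonneg_left g7 (by positivity)
  obtain ⟨I, hI, hy14, hy2I, hIe, hI3, hy1e⟩ := ys x δ e0 hxr hδpos hδ4 g5 g8
  have hmid := mid CB e0 xB zB hCB hB x z a y1 y2 I ha (by omega) (by omega) (by omega)
    (hzle.trans (Real.rpow_le_rpow_of_exponent_le hx1 hη2)) hy1e hy2I hIe hI3
  have hcore := core a z y1 y2 hapos A As B2 X L ε δ δ2 CM (I * (3 * CB * X)) CT
    hXpos.le hL0.le hεpos.le (by linarith)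
    (fun m hm p hp hpz => sft_dvd ha (mem_filter.1 hm).2 hp hpz) (filter_subset _ _)
    (fun m hm => (mem_filter.1 hm).2.1)
    (by
      intro m hm
      have h1 := (mem_filter.1 hm).2.2
      have h0 : (0 : ℝ) < m := lt_of_le_of_lt (by positivity) h1
      have h2 : (1 - ε) * L ≤ Real.log m := by
        have := Real.log_le_log (by positivity) h1.le
        rwa [Real.log_rpow hx0] at this
      have h3 : 2 * Real.log m ≤ Real.log ((m ^ 2 + a : ℕ) : ℝ) := by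
        have : 2 * Real.log (m : ℝ) = Real.log ((m : ℝ) ^ 2) := by rw [Real.log_pow]; norm_num
        rw [this]
        apply Real.log_le_log (by positivity)
        push_cast
        have : (0 : ℝ) ≤ a := Nat.cast_nonneg _
        linarith
      linarith)
    hAs (by linarith)
    (by
      intro p hp hzp hpy
      have h1 : z ^ K * p ≤ x := by
        have : ((z ^ K * p : ℕ) : ℝ) ≤ x := by
          rw [Nat.cast_mul]
          calc ((z ^ K : ℕ) : ℝ) * p ≤ (x : ℝ) ^ δ * (x : ℝ) ^ (1 - δ) := by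
                apply mul_le_mul hKδ _ (by positivity) (by positivity)
                exact le_trans (by exact_mod_cast hpy) hy1le
            _ = x := by
                rw [← Real.rpow_add hx0]
                simp
        exact_mod_cast this
      have h2 := hS2 a p ha hp hzp h1
      have h3 : A.filter (fun m => p ∣ m ^ 2 + a) =
          (Icc 1 x).filter fun m => Sft z m ∧ p ∣ m ^ 2 + a := by
        rw [hAd, filter_filter]
      rw [h3]
      exact h2)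
    hmid
    (by
      have h1 := (abs_le.1 (hM a ha y1 hy14)).2
      have h2 : Real.log y1 ≤ (1 - δ) * L := by
        have h3 : (0 : ℝ) < y1 := by
          have : 0 < y1 := by omega
          exact_mod_cast this
        have := Real.log_le_log h3 hy1le
        rwa [Real.log_rpow hx0] at this
      linarith)
    (by
      intro m hm p q hp hq hyp hyq hpm hqm
      by_contra hne
      have h1 : p * q ∣ m ^ 2 + a :=
        ((Nat.coprime_primes hp hq).2 hne).mul_dvd_of_dvd_of_dvd hpm hqm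
      have h2 : p * q ≤ m ^ 2 + a := Nat.le_of_dvd (by omega) h1
      have h3 : ((p * q : ℕ) : ℝ) ≤ 4 * (x : ℝ) ^ 2 := le_trans (by exact_mod_cast h2) (hmx m hm)
      have h4 : (x : ℝ) ^ (1 + δ) < p := (Nat.floor_lt (by positivity)).1 hyp
      have h5 : (x : ℝ) ^ (1 + δ) < q := (Nat.floor_lt (by positivity)).1 hyq
      have h6 : (x : ℝ) ^ (1 + δ) * (x : ℝ) ^ (1 + δ) < p * q :=
        mul_lt_mul'' h4 h5 (by positivity) (by positivity)
      have h7 : (x : ℝ) ^ (1 + δ) * (x : ℝ) ^ (1 + δ) = (x : ℝ) ^ 2 * (x : ℝ) ^ (2 * δ) := by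
        rw [← Real.rpow_add hx0, ← Real.rpow_two, ← Real.rpow_add hx0]
        congr 1; ring
      have h8 : 4 * (x : ℝ) ^ 2 ≤ (x : ℝ) ^ 2 * (x : ℝ) ^ (2 * δ) := by
        rw [mul_comm]
        exact mul_le_mul_of_nonneg_left g6 (by positivity)
      push_cast at h3
      linarith)
    (by
      intro m hm p hp hpm
      have h0 : 0 < m ^ 2 + a := by omega
      have hp0 : (0 : ℝ) < p := by exact_mod_cast hp.pos
      have h1 : (p : ℝ) ≤ ((m ^ 2 + a : ℕ) : ℝ) := by exact_mod_cast Nat.le_of_dvd h0 hpm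
      constructor
      · have h2 : (p : ℝ) ≤ (x : ℝ) ^ (2 + ε) := h1.trans ((hmx m hm).trans hx2ε)
        have := Real.log_le_log hp0 h2
        rwa [Real.log_rpow hx0] at this
      · intro hnB
        have h2 : (p : ℝ) ≤ (x : ℝ) ^ (2 - δ2) := by
          by_contra hcon
          push Not at hcon
          apply hnB
          rw [hAd, mem_filter] at hm
          rw [hB2, mem_filter]
          exact ⟨hm.1, hm.2, p, hp, hcon, hpm⟩
        have := Real.log_le_log hp0 h2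
        rwa [Real.log_rpow hx0] at this)
    (by
      have := hT x (by omega) z (by omega)
        (hzle.trans (Real.rpow_le_rpow_of_exponent_le hx1 hη3)) a ha
      exact this)
    hδ2pos.le
  -- conclusion
  have hBeq : (As.filter fun m => ∃ p : ℕ, p.Prime ∧ y2 < p ∧ p ∣ m ^ 2 + a).card ≤
      (A.filter fun m => Squarefree (m ^ 2 + a) ∧
        ∃ p : ℕ, p.Prime ∧ (x : ℝ) ^ (1 + δ) < p ∧ p ∣ m ^ 2 + a).card := by
    apply card_le_card
    intro m hm
    rw [mem_filter, hAsd, mem_filter] at hm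
    rw [mem_filter]
    obtain ⟨⟨h1, h2, _⟩, p, hp, hyp, hpm⟩ := hm
    exact ⟨h1, h2, p, hp, (Nat.floor_lt (by positivity)).1 hyp, hpm⟩
  have hBr : ((As.filter fun m => ∃ p : ℕ, p.Prime ∧ y2 < p ∧ p ∣ m ^ 2 + a).card : ℝ) ≤
      ((A.filter fun m => Squarefree (m ^ 2 + a) ∧
        ∃ p : ℕ, p.Prime ∧ (x : ℝ) ^ (1 + δ) < p ∧ p ∣ m ^ 2 + a).card : ℝ) := by exact_mod_cast hBeq
  refine le_trans ?_ hBr
  generalize ((As.filter fun m => ∃ p : ℕ, p.Prime ∧ y2 < p ∧ p ∣ m ^ 2 + a).card : ℝ) = b at hcore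
  exact final_ineq δ δ2 ε L X b CB CM CT I hδ2pos hδ2le hε hδpos hL1 hXpos hCB hCM hCT hδ1 hδ2CT
    hLM hI hcore

end Pool.Agent.D0H41.LP
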