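import Mathlib
import Pool.Agent.D0H41.LP.Fin3

set_option autoImplicit false

namespace Pool.Agent.D0H41.LP

open Finset Filter

lemma card_pf (x m a : ℕ) (η : ℝ) (hη : 0 < η) (ha : a = 1 ∨ a = 3) (hx4 : 4 ≤ x) (hm : m ≤ x)
    (h : Sft ⌊(x : ℝ) ^ η⌋₊ m) : (m ^ 2 + a).primeFactors.card ≤ ⌈3 / η⌉₊ := by
  have hxr : (4 : ℝ) ≤ x := by exact_mod_cast hx4
  have hx0 : (0 : ℝ) < x := by linarith
  have hL0 : 0 < Real.log x := Real.log_pos (by linarith)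
  have hapos : 0 < a := by rcases ha with rfl | rfl <;> norm_num
  have hbig : ∀ q ∈ (m ^ 2 + a).primeFactors, (x : ℝ) ^ η ≤ q := by
    intro q hq
    rw [Nat.mem_primeFactors] at hq
    have h1 : ⌊(x : ℝ) ^ η⌋₊ < q := by
      by_contra hcon
      push Not at hcon
      exact sft_dvd ha h hq.1 hcon hq.2.1
    exact ((Nat.floor_lt (by positivity)).1 h1).le
  have h1 : ((x : ℝ) ^ η) ^ (m ^ 2 + a).primeFactors.card ≤ ((m ^ 2 + a : ℕ) : ℝ) := by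
    calc ((x : ℝ) ^ η) ^ (m ^ 2 + a).primeFactors.card = ∏ q ∈ (m ^ 2 + a).primeFactors, (x : ℝ) ^ η := by
          rw [prod_const]
      _ ≤ ∏ q ∈ (m ^ 2 + a).primeFactors, (q : ℝ) := prod_le_prod (fun _ _ => by positivity) hbig
      _ = ((∏ q ∈ (m ^ 2 + a).primeFactors, q : ℕ) : ℝ) := by rw [Nat.cast_prod]
      _ ≤ _ := by
        exact_mod_cast Nat.le_of_dvd (by omega) (Nat.prod_primeFactors_dvd (m ^ 2 + a))
  have h2 : ((m ^ 2 + a : ℕ) : ℝ) ≤ (x : ℝ) ^ 3 := by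
    have e1 : m ^ 2 ≤ x ^ 2 := Nat.pow_le_pow_left hm 2
    have e2 : m ^ 2 + a ≤ x ^ 2 + 3 := by
      rcases ha with rfl | rfl <;> omega
    have e3 : x ^ 2 + 3 ≤ x ^ 3 := by nlinarith [Nat.pow_le_pow_left hx4 2, pow_succ x 2]
    exact_mod_cast e2.trans e3
  have h3 := Real.log_le_log (by positivity) (h1.trans h2)
  rw [Real.log_pow, Real.log_pow, Real.log_rpow hx0] at h3
  have h4 : ((m ^ 2 + a).primeFactors.card : ℝ) * η ≤ 3 := by
    have : (((m ^ 2 + a).primeFactors.card : ℝ) * η) * Real.log x ≤ 3 * Real.log x := by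
      push_cast at h3
      linarith
    exact le_of_mul_le_mul_right this hL0
  have h5 : ((m ^ 2 + a).primeFactors.card : ℝ) ≤ 3 / η := by
    rw [le_div_iff₀ hη]; exact h4
  exact_mod_cast h5.trans (Nat.le_ceil _)

theorem t_FIN (hB : S_BETA) (hS : S_SIV) (hM : S_MERL) (hP : S_MERP) (hT : S_TOP) (hQ : S_SQU) :
    S_FIN := by
  classical
  obtain ⟨δ2, δ, η, CP, hδ2, hδ, hη, hη1, hCP, hev⟩ := half hB hS hM hP hT hQ
  refine ⟨min δ η, δ2 / (8 * CP), ⌈3 / η⌉₊, lt_min hδ hη, by positivity, ?_⟩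
  filter_upwards [hev, eventually_ge_atTop 4] with x hx hx4
  obtain ⟨hz2, hXL, hA, hBa⟩ := hx
  have hxr : (4 : ℝ) ≤ x := by exact_mod_cast hx4
  have hx0 : (0 : ℝ) < x := by linarith
  have hx1 : (1 : ℝ) ≤ x := by linarith
  have hL0 : 0 < Real.log x := Real.log_pos (by linarith)
  have h1 := hBa 1 (Or.inl rfl)
  have h3 := hBa 3 (Or.inr rfl)
  set z := ⌊(x : ℝ) ^ η⌋₊ with hz
  set A := (Icc 1 x).filter fun m => Sft z m with hAd
  set B1 := A.filter fun m => Squarefree (m ^ 2 + 1) ∧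
    ∃ p : ℕ, p.Prime ∧ (x : ℝ) ^ (1 + δ) < p ∧ p ∣ m ^ 2 + 1 with hB1
  set B3 := A.filter fun m => Squarefree (m ^ 2 + 3) ∧
    ∃ p : ℕ, p.Prime ∧ (x : ℝ) ^ (1 + δ) < p ∧ p ∣ m ^ 2 + 3 with hB3
  have hcard : (B1.card : ℝ) + B3.card ≤ A.card + (B1 ∩ B3).card := by
    have e1 := card_union_add_card_inter B1 B3
    have e2 : (B1 ∪ B3).card ≤ A.card :=
      card_le_card (union_subset (filter_subset _ _) (filter_subset _ _))
    have : B1.card + B3.card ≤ A.card + (B1 ∩ B3).card := by omega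
    exact_mod_cast this
  have hsub : B1 ∩ B3 ⊆ (Icc 1 x).filter fun m => Squarefree (m ^ 2 + 1) ∧
    Squarefree (m ^ 2 + 3) ∧ (m ^ 2 + 1).primeFactors.card ≤ ⌈3 / η⌉₊ ∧
    (m ^ 2 + 3).primeFactors.card ≤ ⌈3 / η⌉₊ ∧
    (∀ q : ℕ, q.Prime → q ∣ (m ^ 2 + 1) * (m ^ 2 + 3) → (x : ℝ) ^ (min δ η) < q) ∧
    (∃ p : ℕ, p.Prime ∧ p ∣ m ^ 2 + 1 ∧ (x : ℝ) ^ (1 + min δ η) < p) ∧
    (∃ p : ℕ, p.Prime ∧ p ∣ m ^ 2 + 3 ∧ (x : ℝ) ^ (1 + min δ η) < p) := by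
    intro m hm
    obtain ⟨hmB1, hmB3⟩ := mem_inter.1 hm
    obtain ⟨hmA, s1, p1, hp1, hx1', hd1⟩ := mem_filter.1 hmB1
    obtain ⟨_, s3, p3, hp3, hx3', hd3⟩ := mem_filter.1 hmB3
    rw [hAd, mem_filter] at hmA
    have hm1 := hmA.1
    rw [mem_Icc] at hm1
    have hpow : (x : ℝ) ^ (1 + min δ η) ≤ (x : ℝ) ^ (1 + δ) :=
      Real.rpow_le_rpow_of_exponent_le hx1 (by linarith [min_le_left δ η])
    rw [mem_filter]
    refine ⟨hmA.1, s1, s3, card_pf x m 1 η hη (Or.inl rfl) hx4 hm1.2 hmA.2,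
      card_pf x m 3 η hη (Or.inr rfl) hx4 hm1.2 hmA.2, ?_, ⟨p1, hp1, hd1, lt_of_le_of_lt hpow hx1'⟩,
      ⟨p3, hp3, hd3, lt_of_le_of_lt hpow hx3'⟩⟩
    intro q hq hqd
    have hq1 : z < q := by
      by_contra hcon
      push Not at hcon
      rcases (Nat.Prime.dvd_mul hq).1 hqd with h | h
      · exact sft_dvd (Or.inl rfl) hmA.2 hq hcon h
      · exact sft_dvd (Or.inr rfl) hmA.2 hq hcon h
    have hq2 : (x : ℝ) ^ η < q := (Nat.floor_lt (by positivity)).1 hq1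
    refine lt_of_le_of_lt ?_ hq2
    exact Real.rpow_le_rpow_of_exponent_le hx1 (min_le_right _ _)
  refine le_trans ?_ (Nat.cast_le.2 (card_le_card hsub))
  set X := (x : ℝ) * VF z with hX
  have hXpos : 0 < X := lt_of_lt_of_le (by positivity) hXL
  have e1 : δ2 / 8 * X ≤ ((B1 ∩ B3).card : ℝ) := by
    have : 0 < δ2 * X := by positivity
    linarith
  refine le_trans ?_ e1
  calc δ2 / (8 * CP) * x / Real.log x ^ 2 = δ2 / 8 * (x / (CP * Real.log x ^ 2)) := by field_simp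
    _ ≤ _ := mul_le_mul_of_nonneg_left hXL (by positivity)

end Pool.Agent.D0H41.LP
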