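import Mathlib
import Pool.Agent.D0H41.LP.Stm

set_option autoImplicit false

namespace Pool.Agent.D0H41.LP

open Finset Filter

/-- integers up to `x` in a residue class -/
lemma card_class (x q c : ℕ) :
    ((Icc 1 x).filter fun m => m % q = c).card ≤ x / q + 1 := by
  have h : ((Icc 1 x).filter fun m => m % q = c).card ≤ (range (x / q + 1)).card := by
    apply card_le_card_of_injOn (fun m => m / q)
    · intro m hm
      simp only [coe_filter, mem_Icc, Set.mem_ofPred_eq] at hm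
      simp only [coe_range, Set.mem_Iio]
      exact Nat.lt_succ_of_le (Nat.div_le_div_right hm.1.2)
    · intro m hm m' hm' h
      simp only [coe_filter, mem_Icc, Set.mem_ofPred_eq] at hm hm'
      simp only at h
      rw [← Nat.div_add_mod m q, ← Nat.div_add_mod m' q, h, hm.2, hm'.2]
  simpa using h

/-- few multiples of `p ^ 2` -/
lemma card_sq (x a p : ℕ) (ha : a = 1 ∨ a = 3) (hp : p.Prime) (hp2 : 2 < p) :
    ((Icc 1 x).filter fun m => p ^ 2 ∣ m ^ 2 + a).card ≤ 2 * (x / p ^ 2 + 1) := by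
  classical
  rcases ((Icc 1 x).filter fun m => p ^ 2 ∣ m ^ 2 + a).eq_empty_or_nonempty with h | ⟨m0, h0⟩
  · rw [h]; simp
  rw [mem_filter] at h0
  have hnot : ∀ m : ℕ, p ^ 2 ∣ m ^ 2 + a → ¬ p ∣ m := by
    intro m hm hpm
    have h1 : p ^ 2 ∣ m ^ 2 := pow_dvd_pow_of_dvd hpm 2
    have h2 : p ^ 2 ∣ a := (Nat.dvd_add_right h1).1 hm
    have h3 : p ^ 2 ≤ a := Nat.le_of_dvd (by omega) h2
    have h4 : 9 ≤ p ^ 2 := by nlinarith
    omega
  have hsub : ((Icc 1 x).filter fun m => p ^ 2 ∣ m ^ 2 + a) ⊆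
      ((Icc 1 x).filter fun m => m % p ^ 2 = m0 % p ^ 2) ∪
      ((Icc 1 x).filter fun m => m % p ^ 2 = (p ^ 2 - m0 % p ^ 2)) := by
    intro m hm
    rw [mem_filter] at hm
    have hA : ((p : ℤ) ^ 2) ∣ (m : ℤ) ^ 2 + a := by exact_mod_cast hm.2
    have hB : ((p : ℤ) ^ 2) ∣ (m0 : ℤ) ^ 2 + a := by exact_mod_cast h0.2
    have hD : ((p : ℤ) ^ 2) ∣ ((m : ℤ) - m0) * (m + m0) := by
      have hE : ((m : ℤ) - m0) * (m + m0) = ((m : ℤ) ^ 2 + a) - ((m0 : ℤ) ^ 2 + a) := by ring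
      rw [hE]
      exact dvd_sub hA hB
    have hpz : Prime (p : ℤ) := Nat.prime_iff_prime_int.1 hp
    have hor : ¬ ((p : ℤ) ∣ (m : ℤ) - m0) ∨ ¬ ((p : ℤ) ∣ (m : ℤ) + m0) := by
      by_contra hcon
      push Not at hcon
      have h2m : (p : ℤ) ∣ 2 * m := by
        have hE : (2 : ℤ) * m = ((m : ℤ) - m0) + (m + m0) := by ring
        rw [hE]
        exact dvd_add hcon.1 hcon.2
      rcases hpz.dvd_or_dvd h2m with h | h
      · have : p ∣ 2 := by exact_mod_cast h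
        have := Nat.le_of_dvd (by norm_num) this
        omega
      · exact hnot m hm.2 (by exact_mod_cast h)
    rw [mem_union, mem_filter, mem_filter]
    have hp2pos : 0 < p ^ 2 := by positivity
    rcases hor with h | h
    · right
      refine ⟨hm.1, ?_⟩
      have hc : IsCoprime ((p : ℤ) ^ 2) ((m : ℤ) - m0) :=
        IsCoprime.pow_left ((Prime.coprime_iff_not_dvd hpz).2 h)
      have h5 : ((p : ℤ) ^ 2) ∣ (m : ℤ) + m0 := hc.dvd_of_dvd_mul_left hD
      have h6 : p ^ 2 ∣ m + m0 := by exact_mod_cast h5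
      have h7 : (m % p ^ 2 + m0 % p ^ 2) % p ^ 2 = 0 := by
        rw [← Nat.add_mod]; exact Nat.mod_eq_zero_of_dvd h6
      have h8 : m % p ^ 2 < p ^ 2 := Nat.mod_lt _ hp2pos
      have h9 : m0 % p ^ 2 < p ^ 2 := Nat.mod_lt _ hp2pos
      have h10 : m0 % p ^ 2 ≠ 0 := by
        intro h
        exact hnot m0 h0.2 (dvd_trans (dvd_pow_self p (by norm_num)) (Nat.dvd_of_mod_eq_zero h))
      have h11 : p ^ 2 ∣ m % p ^ 2 + m0 % p ^ 2 := Nat.dvd_of_mod_eq_zero h7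
      obtain ⟨k, hk⟩ := h11
      generalize m % p ^ 2 = u at *
      generalize m0 % p ^ 2 = v at *
      have h12 : k = 1 := by
        rcases Nat.lt_or_ge k 2 with h | h
        · interval_cases k
          · omega
          · rfl
        · exfalso
          have : p ^ 2 * 2 ≤ p ^ 2 * k := Nat.mul_le_mul_left _ h
          omega
      rw [h12] at hk
      omega
    · left
      refine ⟨hm.1, ?_⟩
      have hc : IsCoprime ((p : ℤ) ^ 2) ((m : ℤ) + m0) :=
        IsCoprime.pow_left ((Prime.coprime_iff_not_dvd hpz).2 h)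
      have h5 : ((p : ℤ) ^ 2) ∣ (m : ℤ) - m0 := hc.dvd_of_dvd_mul_right hD
      have h6 : (m0 : ℤ) ≡ m [ZMOD ((p ^ 2 : ℕ) : ℤ)] := by
        rw [Int.modEq_iff_dvd]
        exact_mod_cast h5
      have h7 := (Int.natCast_modEq_iff).1 h6
      exact h7.symm
  refine (card_le_card hsub).trans ((card_union_le _ _).trans ?_)
  have e1 := card_class x (p ^ 2) (m0 % p ^ 2)
  have e2 := card_class x (p ^ 2) (p ^ 2 - m0 % p ^ 2)
  omega

/-- gap principle for `m ^ 2 + a = k n ^ 2` -/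
lemma gap (a k m n m' n' : ℕ) (ha : a = 1 ∨ a = 3) (hn : 2 ≤ n) (hk : 1 ≤ k)
    (h : m ^ 2 + a = k * n ^ 2) (h' : m' ^ 2 + a = k * n' ^ 2) (hle : n ≤ n')
    (hn' : n' ^ 8 < 2 * n ^ 8) : n = n' := by
  have h5 : 5 * n' ^ 2 < 6 * n ^ 2 := by
    by_contra hcon
    push Not at hcon
    have h1 : (6 * n ^ 2) ^ 4 ≤ (5 * n' ^ 2) ^ 4 := Nat.pow_le_pow_left hcon 4
    have h2 : (6 * n ^ 2) ^ 4 = 1296 * n ^ 8 := by ring
    have h3 : (5 * n' ^ 2) ^ 4 = 625 * n' ^ 8 := by ring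
    rw [h2, h3] at h1
    have h4 : 0 < n ^ 8 := by positivity
    omega
  have hm3 : n ^ 2 ≤ m ^ 2 + 3 := by
    have : 1 * n ^ 2 ≤ k * n ^ 2 := Nat.mul_le_mul_right _ hk
    rcases ha with rfl | rfl <;> omega
  have hnn : n ^ 2 ≤ n' ^ 2 := Nat.pow_le_pow_left hle 2
  have hmm : m ≤ m' := by
    have : k * n ^ 2 ≤ k * n' ^ 2 := Nat.mul_le_mul_left _ hnn
    exact (Nat.pow_le_pow_iff_left (by norm_num : (2 : ℕ) ≠ 0)).1 (by omega)
  have key : (m : ℤ) * n' = m' * n := by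
    by_contra hne
    have e1 : ((m : ℤ) * n' - m' * n) * (m * n' + m' * n) = a * ((n : ℤ) ^ 2 - n' ^ 2) := by
      have g1 : (m : ℤ) ^ 2 = k * n ^ 2 - a := by
        have : ((m ^ 2 + a : ℕ) : ℤ) = ((k * n ^ 2 : ℕ) : ℤ) := by rw [h]
        push_cast at this
        linarith
      have g2 : (m' : ℤ) ^ 2 = k * n' ^ 2 - a := by
        have : ((m' ^ 2 + a : ℕ) : ℤ) = ((k * n' ^ 2 : ℕ) : ℤ) := by rw [h']
        push_cast at this
        linarith
      have : ((m : ℤ) * n' - m' * n) * (m * n' + m' * n) = (m : ℤ) ^ 2 * n' ^ 2 - (m' : ℤ) ^ 2 * n ^ 2 := by ring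
      rw [this, g1, g2]
      ring
    have e2 : (1 : ℤ) ≤ |(m : ℤ) * n' - m' * n| := Int.one_le_abs (sub_ne_zero.2 hne)
    have e3 : (m : ℤ) * n' + m' * n ≤ a * ((n' : ℤ) ^ 2 - n ^ 2) := by
      have hpos : (0 : ℤ) ≤ (m : ℤ) * n' + m' * n := by positivity
      have hab : |((m : ℤ) * n' - m' * n) * (m * n' + m' * n)| = a * ((n' : ℤ) ^ 2 - n ^ 2) := by
        rw [e1, abs_mul, abs_of_nonneg (by positivity : (0 : ℤ) ≤ (a : ℤ))]
        congr 1
        rw [abs_sub_comm, abs_of_nonneg]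
        have : ((n ^ 2 : ℕ) : ℤ) ≤ ((n' ^ 2 : ℕ) : ℤ) := by exact_mod_cast hnn
        push_cast at this
        linarith
      rw [abs_mul, abs_of_nonneg hpos] at hab
      calc (m : ℤ) * n' + m' * n = 1 * ((m : ℤ) * n' + m' * n) := by ring
        _ ≤ |(m : ℤ) * n' - m' * n| * ((m : ℤ) * n' + m' * n) := mul_le_mul_of_nonneg_right e2 hpos
        _ = _ := hab
    have e4 : (2 : ℤ) * (m * n) ≤ (m : ℤ) * n' + m' * n := by
      have f1 : (m : ℤ) * n ≤ m * n' := by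
        apply mul_le_mul_of_nonneg_left (by exact_mod_cast hle) (by positivity)
      have f2 : (m : ℤ) * n ≤ m' * n := by
        apply mul_le_mul_of_nonneg_right (by exact_mod_cast hmm) (by positivity)
      linarith
    have e5 : (5 : ℤ) * ((a : ℤ) * ((n' : ℤ) ^ 2 - n ^ 2)) ≤ 3 * n ^ 2 := by
      have f1 : (5 : ℤ) * (n' : ℤ) ^ 2 < 6 * (n : ℤ) ^ 2 := by exact_mod_cast h5
      have f2 : (0 : ℤ) ≤ (n' : ℤ) ^ 2 - n ^ 2 := by
        have : ((n ^ 2 : ℕ) : ℤ) ≤ ((n' ^ 2 : ℕ) : ℤ) := by exact_mod_cast hnn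
        push_cast at this
        linarith
      have f3 : (a : ℤ) ≤ 3 := by
        rcases ha with rfl | rfl <;> norm_num
      have f4 : (a : ℤ) * ((n' : ℤ) ^ 2 - n ^ 2) ≤ 3 * ((n' : ℤ) ^ 2 - n ^ 2) :=
        mul_le_mul_of_nonneg_right f3 f2
      linarith
    have e6 : (10 : ℤ) * (m * n) ≤ 3 * n ^ 2 := by linarith
    have e7 : (10 : ℤ) * m ≤ 3 * n := by
      have hn0 : (0 : ℤ) < n := by exact_mod_cast (by omega : 0 < n)
      by_contra hcon
      push Not at hcon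
      have : (3 * (n : ℤ)) * n < (10 * m) * n := mul_lt_mul_of_pos_right hcon hn0
      nlinarith
    have e8 : (n : ℤ) ^ 2 ≤ (m : ℤ) ^ 2 + 3 := by exact_mod_cast hm3
    have e9 : (2 : ℤ) ≤ n := by exact_mod_cast hn
    have e10 : (0 : ℤ) ≤ m := by positivity
    nlinarith
  have key2 : (m : ℤ) ^ 2 * n' ^ 2 = m' ^ 2 * n ^ 2 := by
    have : ((m : ℤ) * n') ^ 2 = (m' * n) ^ 2 := by rw [key]
    linarith [this, mul_pow (m : ℤ) n' 2, mul_pow (m' : ℤ) n 2]
  have g1 : (m : ℤ) ^ 2 = k * n ^ 2 - a := by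
    have : ((m ^ 2 + a : ℕ) : ℤ) = ((k * n ^ 2 : ℕ) : ℤ) := by rw [h]
    push_cast at this
    linarith
  have g2 : (m' : ℤ) ^ 2 = k * n' ^ 2 - a := by
    have : ((m' ^ 2 + a : ℕ) : ℤ) = ((k * n' ^ 2 : ℕ) : ℤ) := by rw [h']
    push_cast at this
    linarith
  rw [g1, g2] at key2
  have ha0 : (a : ℤ) ≠ 0 := by rcases ha with rfl | rfl <;> norm_num
  have : (a : ℤ) * ((n : ℤ) ^ 2 - n' ^ 2) = 0 := by linarith
  have h8 : (n : ℤ) ^ 2 = n' ^ 2 := by
    rcases mul_eq_zero.1 this with h | h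
    · exact absurd h ha0
    · linarith
  have h9 : n ^ 2 = n' ^ 2 := by exact_mod_cast h8
  exact (Nat.pow_left_injective (by norm_num : (2 : ℕ) ≠ 0)) h9

open Classical in
/-- large square divisors are rare -/
lemma card_big (x a y : ℕ) (ha : a = 1 ∨ a = 3) (hy : 2 ≤ y) :
    ((Icc 1 x).filter fun m => ∃ n : ℕ, y ≤ n ∧ n ^ 2 ∣ m ^ 2 + a).card ≤
      ((x ^ 2 + 3) / y ^ 2 + 1) * (Nat.log 2 ((x + 2) ^ 8) + 1) := by
  set S := (Icc 1 x).filter fun m => ∃ n : ℕ, y ≤ n ∧ n ^ 2 ∣ m ^ 2 + a with hS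
  have hch : ∀ m ∈ S, ∃ n k : ℕ, y ≤ n ∧ m ^ 2 + a = k * n ^ 2 := by
    intro m hm
    rw [hS, mem_filter] at hm
    obtain ⟨_, n, hn, k, hk⟩ := hm
    exact ⟨n, k, hn, by rw [hk]; ring⟩
  choose! nn kk hnk using hch
  have h : S.card ≤ (range ((x ^ 2 + 3) / y ^ 2 + 1) ×ˢ range (Nat.log 2 ((x + 2) ^ 8) + 1)).card := by
    apply card_le_card_of_injOn (fun m => (kk m, Nat.log 2 (nn m ^ 8)))
    · intro m hm
      have hm' : m ∈ S := hm
      obtain ⟨h1, h2⟩ := hnk m hm'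
      rw [hS, mem_filter, mem_Icc] at hm'
      have hx : m ^ 2 + a ≤ x ^ 2 + 3 := by
        have : m ^ 2 ≤ x ^ 2 := Nat.pow_le_pow_left hm'.1.2 2
        omega
      have hy0 : 0 < y ^ 2 := by positivity
      have hyn : y ^ 2 ≤ nn m ^ 2 := Nat.pow_le_pow_left h1 2
      simp only [coe_product, coe_range, Set.mem_prod, Set.mem_Iio]
      constructor
      · apply Nat.lt_succ_of_le
        rw [Nat.le_div_iff_mul_le hy0]
        calc kk m * y ^ 2 ≤ kk m * nn m ^ 2 := Nat.mul_le_mul_left _ hyn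
          _ = m ^ 2 + a := h2.symm
          _ ≤ _ := hx
      · apply Nat.lt_succ_of_le
        apply Nat.log_mono_right
        apply Nat.pow_le_pow_left
        by_contra hcon
        push Not at hcon
        have h3 : (x + 3) ^ 2 ≤ nn m ^ 2 := Nat.pow_le_pow_left hcon 2
        have hk1 : 1 ≤ kk m := by
          by_contra hk
          have : kk m = 0 := by omega
          rw [this] at h2
          omega
        have h4 : 1 * nn m ^ 2 ≤ kk m * nn m ^ 2 := Nat.mul_le_mul_right _ hk1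
        have h5 : (x + 3) ^ 2 = x ^ 2 + 6 * x + 9 := by ring
        omega
    · intro m hm m' hm' h
      have hm1 : m ∈ S := hm
      have hm2 : m' ∈ S := hm'
      obtain ⟨h1, h2⟩ := hnk m hm1
      obtain ⟨h1', h2'⟩ := hnk m' hm2
      simp only [Prod.mk.injEq] at h
      obtain ⟨hk, hl⟩ := h
      have hk1 : 1 ≤ kk m := by
        by_contra hk
        have : kk m = 0 := by omega
        rw [this] at h2
        omega
      have hpos : nn m ^ 8 ≠ 0 := by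
        have : 0 < nn m := by omega
        positivity
      have hpos' : nn m' ^ 8 ≠ 0 := by
        have : 0 < nn m' := by omega
        positivity
      have l1 := Nat.pow_log_le_self 2 hpos
      have l1' := Nat.pow_log_le_self 2 hpos'
      have l2 := Nat.lt_pow_succ_log_self (by norm_num : 1 < 2) (nn m ^ 8)
      have l2' := Nat.lt_pow_succ_log_self (by norm_num : 1 < 2) (nn m' ^ 8)
      have p1 : (2 : ℕ) ^ (Nat.log 2 (nn m ^ 8)).succ = 2 * 2 ^ (Nat.log 2 (nn m ^ 8)) := by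
        rw [pow_succ]; ring
      have p2 : (2 : ℕ) ^ (Nat.log 2 (nn m' ^ 8)).succ = 2 * 2 ^ (Nat.log 2 (nn m' ^ 8)) := by
        rw [pow_succ]; ring
      rw [p1] at l2
      rw [p2] at l2'
      rw [hl] at l1 l2
      have hn : nn m = nn m' := by
        rcases le_total (nn m) (nn m') with h | h
        · exact gap a (kk m) m (nn m) m' (nn m') ha (by omega) hk1 h2 (by rw [hk]; exact h2') h
            (by omega)
        · exact (gap a (kk m) m' (nn m') m (nn m) ha (by omega) hk1 (by rw [hk]; exact h2') h2 h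
            (by omega)).symm
      have hmm : m ^ 2 = m' ^ 2 := by
        have : m ^ 2 + a = m' ^ 2 + a := by rw [h2, h2', hk, hn]
        omega
      exact (Nat.pow_left_injective (by norm_num : (2 : ℕ) ≠ 0)) hmm
  simpa using h

lemma log_bd (x : ℕ) (hx2 : 2 ≤ x) : ((Nat.log 2 ((x + 2) ^ 8) : ℕ) : ℝ) ≤ 24 * Real.log x := by
  have hxr : (2 : ℝ) ≤ x := by exact_mod_cast hx2
  have e0 : (x + 2) ^ 8 ≠ 0 := by positivity
  have e1 := Nat.pow_log_le_self 2 e0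
  generalize hℓ : Nat.log 2 ((x + 2) ^ 8) = ℓ at *
  have e2 : (ℓ : ℝ) * Real.log 2 ≤ 8 * Real.log ((x : ℝ) + 2) := by
    have h1 : ((2 : ℝ) ^ ℓ) ≤ ((x : ℝ) + 2) ^ 8 := by
      have h0 : (((2 ^ ℓ : ℕ)) : ℝ) ≤ (((x + 2) ^ 8 : ℕ) : ℝ) := Nat.cast_le.2 e1
      rwa [Nat.cast_pow, Nat.cast_pow, Nat.cast_add, Nat.cast_ofNat] at h0
    have h2 := Real.log_le_log (by positivity) h1
    rw [Real.log_pow, Real.log_pow] at h2
    norm_num at h2
    exact h2
  have e3 : Real.log ((x : ℝ) + 2) ≤ 2 * Real.log x := by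
    have : Real.log ((x : ℝ) ^ 2) = 2 * Real.log x := by rw [Real.log_pow]; norm_num
    rw [← this]
    apply Real.log_le_log (by positivity)
    nlinarith
  have e4 : (0.69 : ℝ) < Real.log 2 := by
    have := Real.log_two_gt_d9; linarith
  have e5 : (0 : ℝ) ≤ ℓ := Nat.cast_nonneg _
  nlinarith

theorem t_SQU : S_SQU := by
  classical
  refine ⟨130, by norm_num, fun x z hz hzx a ha => ?_⟩
  have hx2 : 2 ≤ x := hz.trans hzx
  have hxr : (2 : ℝ) ≤ x := by exact_mod_cast hx2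
  have hx0 : (0 : ℝ) < x := by linarith
  have hzr : (2 : ℝ) ≤ z := by exact_mod_cast hz
  set X : ℝ := (x : ℝ) ^ (2 / 3 : ℝ) with hX
  have hX1 : 1 ≤ X := Real.one_le_rpow (by linarith) (by norm_num)
  have hXX : X * X * X = (x : ℝ) ^ 2 := by
    rw [hX, ← Real.rpow_add hx0, ← Real.rpow_add hx0, ← Real.rpow_natCast]
    norm_num
  have hXgt : 1 < X := Real.one_lt_rpow (by linarith) (by norm_num)
  set y : ℕ := ⌈X⌉₊ with hy
  have hyX : X ≤ y := Nat.le_ceil X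
  have hyX' : (y : ℝ) ≤ X + 1 := (Nat.ceil_lt_add_one (by linarith)).le
  have hy2 : 2 ≤ y := by
    have : (1 : ℝ) < y := lt_of_lt_of_le hXgt hyX
    have : 1 < y := by exact_mod_cast this
    omega
  have hL : 0 ≤ Real.log x := Real.log_nonneg (by linarith)
  have hsub : ((Icc 1 x).filter fun m => ∃ p : ℕ, p.Prime ∧ z < p ∧ p ^ 2 ∣ m ^ 2 + a) ⊆
      (((Ioc z y).filter Nat.Prime).biUnion fun p => (Icc 1 x).filter fun m => p ^ 2 ∣ m ^ 2 + a) ∪
      ((Icc 1 x).filter fun m => ∃ n : ℕ, y ≤ n ∧ n ^ 2 ∣ m ^ 2 + a) := by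
    intro m hm
    rw [mem_filter] at hm
    obtain ⟨hm1, p, hp, hzp, hpm⟩ := hm
    rw [mem_union, mem_biUnion, mem_filter]
    rcases le_total y p with h | h
    · right
      exact ⟨hm1, p, h, hpm⟩
    · left
      refine ⟨p, ?_, ?_⟩
      · rw [mem_filter, mem_Ioc]; exact ⟨⟨hzp, h⟩, hp⟩
      · rw [mem_filter]; exact ⟨hm1, hpm⟩
  have h1 : ((((Ioc z y).filter Nat.Prime).biUnion
      fun p => (Icc 1 x).filter fun m => p ^ 2 ∣ m ^ 2 + a).card : ℝ) ≤ 2 * (x / z) + 2 * y := by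
    have g1 : ((((Ioc z y).filter Nat.Prime).biUnion
      fun p => (Icc 1 x).filter fun m => p ^ 2 ∣ m ^ 2 + a).card : ℝ) ≤
        ∑ p ∈ (Ioc z y).filter Nat.Prime, (2 * ((x : ℝ) * ((p : ℝ) ^ 2)⁻¹ + 1)) := by
      have := card_biUnion_le (s := (Ioc z y).filter Nat.Prime)
        (t := fun p => (Icc 1 x).filter fun m => p ^ 2 ∣ m ^ 2 + a)
      refine le_trans (Nat.cast_le.2 this) ?_
      push_cast
      apply sum_le_sum
      intro p hp
      rw [mem_filter, mem_Ioc] at hp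
      have h2 := card_sq x a p ha hp.2 (by omega)
      have h3 : ((x / p ^ 2 : ℕ) : ℝ) ≤ (x : ℝ) * ((p : ℝ) ^ 2)⁻¹ := by
        have := @Nat.cast_div_le ℝ _ _ _ x (p ^ 2)
        rw [← div_eq_mul_inv]
        push_cast at this
        exact this
      have h4 : ((((Icc 1 x).filter fun m => p ^ 2 ∣ m ^ 2 + a).card : ℕ) : ℝ) ≤
          2 * (((x / p ^ 2 : ℕ) : ℝ) + 1) := by exact_mod_cast h2
      linarith
    have g2 : ∑ p ∈ (Ioc z y).filter Nat.Prime, (2 * ((x : ℝ) * ((p : ℝ) ^ 2)⁻¹ + 1)) ≤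
        ∑ p ∈ Ioc z y, (2 * ((x : ℝ) * ((p : ℝ) ^ 2)⁻¹ + 1)) :=
      sum_le_sum_of_subset_of_nonneg (filter_subset _ _) fun _ _ _ => by positivity
    refine g1.trans (g2.trans ?_)
    rcases le_total z y with h | h
    · have g3 := sum_Ioc_inv_sq_le_sub (α := ℝ) (k := z) (n := y) (by omega) h
      rw [← mul_sum, sum_add_distrib, ← mul_sum]
      simp only [sum_const, Nat.card_Ioc, nsmul_eq_mul, mul_one]
      have g4 : ((y - z : ℕ) : ℝ) ≤ y := by exact_mod_cast Nat.sub_le _ _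
      have g5 : (x : ℝ) * ∑ i ∈ Ioc z y, ((i : ℝ) ^ 2)⁻¹ ≤ x * (z : ℝ)⁻¹ := by
        apply mul_le_mul_of_nonneg_left _ hx0.le
        have : (0 : ℝ) ≤ (y : ℝ)⁻¹ := by positivity
        linarith
      rw [div_eq_mul_inv]
      linarith
    · rw [Ioc_eq_empty (by omega)]
      simp only [sum_empty]
      positivity
  have h2 := card_big x a y ha hy2
  have h3 : ((((Icc 1 x).filter fun m => ∃ n : ℕ, y ≤ n ∧ n ^ 2 ∣ m ^ 2 + a).card : ℕ) : ℝ) ≤
      5 * X * (24 * (Real.log x + 1)) := by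
    have g0 : ((((Icc 1 x).filter fun m => ∃ n : ℕ, y ≤ n ∧ n ^ 2 ∣ m ^ 2 + a).card : ℕ) : ℝ) ≤
      ((((x ^ 2 + 3) / y ^ 2 : ℕ) : ℝ) + 1) * (((Nat.log 2 ((x + 2) ^ 8) : ℕ) : ℝ) + 1) := by
      have h0 := (Nat.cast_le (α := ℝ)).2 h2
      rw [Nat.cast_mul, Nat.cast_add, Nat.cast_add, Nat.cast_one] at h0
      exact h0
    refine g0.trans ?_
    have g1 : (((x ^ 2 + 3) / y ^ 2 : ℕ) : ℝ) ≤ 4 * X := by
      have := @Nat.cast_div_le ℝ _ _ _ (x ^ 2 + 3) (y ^ 2)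
      refine this.trans ?_
      push_cast
      rw [div_le_iff₀ (by positivity)]
      have e1 : X * X ≤ (y : ℝ) ^ 2 := by nlinarith
      calc (x : ℝ) ^ 2 + 3 ≤ 4 * (x : ℝ) ^ 2 := by nlinarith
        _ = 4 * X * (X * X) := by rw [← hXX]; ring
        _ ≤ 4 * X * (y : ℝ) ^ 2 := mul_le_mul_of_nonneg_left e1 (by positivity)
    have g2 := log_bd x hx2
    have g3 : (((x ^ 2 + 3) / y ^ 2 : ℕ) : ℝ) + 1 ≤ 5 * X := by linarith
    have g4 : ((Nat.log 2 ((x + 2) ^ 8) : ℕ) : ℝ) + 1 ≤ 24 * (Real.log x + 1) := by linarith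
    have g5 : (0 : ℝ) ≤ ((Nat.log 2 ((x + 2) ^ 8) : ℕ) : ℝ) := Nat.cast_nonneg _
    generalize ((Nat.log 2 ((x + 2) ^ 8) : ℕ) : ℝ) = ℓ at *
    exact mul_le_mul g3 g4 (by linarith) (by positivity)
  have h4 : ((((Icc 1 x).filter fun m => ∃ p : ℕ, p.Prime ∧ z < p ∧ p ^ 2 ∣ m ^ 2 + a).card : ℕ) : ℝ) ≤
      (2 * (x / z) + 2 * y) + 5 * X * (24 * (Real.log x + 1)) := by
    refine le_trans ?_ (add_le_add h1 h3)
    have := (card_le_card hsub).trans (card_union_le _ _)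
    exact_mod_cast this
  refine h4.trans ?_
  have h5 : (0 : ℝ) ≤ x / z := by positivity
  have h6 : X ≤ X * (Real.log x + 1) := by nlinarith
  nlinarith

end Pool.Agent.D0H41.LP
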